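import Mathlib

/-!
# Project BS: the dimension of Baranski sponges is not piecewise real-analytic (MP_0b6f3a_an)

Public definitions (first part) and the working statements `S_...` of the pieces (second part).
-/

open Set Filter Topology MeasureTheory
open scoped ENNReal

namespace Pool.Agent.R660.BS

/-! ## Public definitions -/

/-- Parameters: for each coordinate `i` and each symbol `a : A i` the pair `(r, t)` of the
similarity `x ↦ r x + t`.  This is a space `ℝ ^ N`, `N = 2 ∑ |A i|`. -/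
abbrev Param (d : ℕ) (A : Fin d → Type) := (i : Fin d) → A i → ℝ × ℝ

variable {d : ℕ} {A : Fin d → Type}

/-- The similarity `φ_{i,a}`. -/
def phi (p : Param d A) (i : Fin d) (a : A i) (x : ℝ) : ℝ := (p i a).1 * x + (p i a).2

/-- `φ_{i,ω 0} ∘ ⋯ ∘ φ_{i,ω (n-1)}` evaluated at `0`. -/
def iter (p : Param d A) (i : Fin d) : ℕ → (ℕ → (i : Fin d) → A i) → ℝ
  | 0, _ => 0
  | n + 1, ω => phi p i (ω 0 i) (iter p i n (fun k => ω (k + 1)))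

/-- The limit set (self-affine sponge) of the diagonal IFS with parameter `p` and alphabet `E`. -/
def limitSet (E : Set ((i : Fin d) → A i)) (p : Param d A) : Set (EuclideanSpace ℝ (Fin d)) :=
  {x | ∃ ω : ℕ → (i : Fin d) → A i, (∀ n, ω n ∈ E) ∧
    ∀ i, Tendsto (fun n => iter p i n ω) atTop (𝓝 (x i))}

/-- All the maps are contracting similarities of `[0,1]`. -/
def Admissible (p : Param d A) : Prop :=
  ∀ i a, 0 < |(p i a).1| ∧ |(p i a).1| < 1 ∧ ∀ x ∈ Icc (0 : ℝ) 1, phi p i a x ∈ Icc (0 : ℝ) 1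

/-- Baranski parameters: the open intervals `φ_{i,a} ((0,1))` are pairwise disjoint. -/
def Baranski (d : ℕ) (A : Fin d → Type) : Set (Param d A) :=
  {p | Admissible p ∧ ∀ i, ∀ a b : A i, a ≠ b →
    Disjoint (phi p i a '' Ioo 0 1) (phi p i b '' Ioo 0 1)}

/-- strongly Baranski parameters: the closed intervals `φ_{i,a} ([0,1])` are pairwise disjoint. -/
def StronglyBaranski (d : ℕ) (A : Fin d → Type) : Set (Param d A) :=
  {p | Admissible p ∧ ∀ i, ∀ a b : A i, a ≠ b →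
    Disjoint (phi p i a '' Icc 0 1) (phi p i b '' Icc 0 1)}

/-- Hausdorff dimension of the limit set. -/
noncomputable def HD (E : Set ((i : Fin d) → A i)) (p : Param d A) : ℝ :=
  (dimH (limitSet E p)).toReal

/-- `F` is real-analytic on the set `S`. -/
def RealAnalyticOn {V : Type} [NormedAddCommGroup V] [NormedSpace ℝ V] (F : V → ℝ)
    (S : Set V) : Prop :=
  ∀ x ∈ S, ∃ U : Set V, IsOpen U ∧ x ∈ U ∧ ∃ G : V → ℝ, AnalyticOnNhd ℝ G U ∧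
    ∀ y ∈ S ∩ U, F y = G y

/-- The interior of `P` relative to `S`. -/
def relInterior {V : Type} [TopologicalSpace V] (S P : Set V) : Set V :=
  {x | x ∈ P ∧ ∃ U : Set V, IsOpen U ∧ x ∈ U ∧ U ∩ S ⊆ P}

/-- `F` is piecewise real-analytic on `S`: `S` is covered by a locally finite family of relatively
closed sets, each the (relative) closure of its relative interior, with `F` real-analytic on each
of them. -/
def PiecewiseAnalyticOn {V : Type} [NormedAddCommGroup V] [NormedSpace ℝ V] (F : V → ℝ)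
    (S : Set V) : Prop :=
  ∃ Pc : Set (Set V), S ⊆ ⋃₀ Pc ∧
    (∀ P ∈ Pc, (∃ C : Set V, IsClosed C ∧ P = S ∩ C) ∧ P = S ∩ closure (relInterior S P) ∧
      RealAnalyticOn F P) ∧
    ∀ x ∈ S, ∃ U : Set V, IsOpen U ∧ x ∈ U ∧ {P | P ∈ Pc ∧ (P ∩ U).Nonempty}.Finite

/-! ## Working definitions -/

/-- the alphabet of both coordinates is `Fin 16`; `row a` is the row of the column `a`. -/
def row (a : Fin 16) : Fin 16 := if a.val < 8 then 0 else 1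

/-- the ratio of the column `a`. -/
noncomputable def qX (ρ0 ρ1 : ℝ) (a : Fin 16) : ℝ := if a.val < 8 then ρ0 else ρ1

/-- the digit set. -/
def EE : Set (Fin 2 → Fin 16) := {e | e 1 = row (e 0)}

/-- our parameters. -/
noncomputable def par (ρ0 ρ1 r : ℝ) : Param 2 (fun _ => Fin 16) :=
  fun i a => (if i = 0 then qX ρ0 ρ1 a else r, (a.val : ℝ) / 16)

/-- the point with digits `ω`. -/
noncomputable def pt (q : Fin 16 → ℝ) (ω : ℕ → Fin 16) : ℝ :=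
  ∑' k, (∏ m ∈ Finset.range k, q (ω m)) * (((ω k).val : ℝ) / 16)

/-- the carpet. -/
noncomputable def KK (ρ0 ρ1 r : ℝ) : Set (ℝ × ℝ) :=
  range (fun ω : ℕ → Fin 16 => (pt (qX ρ0 ρ1) ω, pt (fun _ => r) (fun k => row (ω k))))

/-- the dimension function. -/
noncomputable def DD (c κ0 κ1 θ : ℝ) : ℝ :=
  Real.binEntropy θ / c + Real.log 8 / (θ * κ0 + (1 - θ) * κ1)

/-! ## Pieces -/

/-- GEO. -/
def S_GEO : Prop := ∀ (q : Fin 16 → ℝ) (g : ℝ), 0 < g → (∀ a, 0 < q a ∧ q a ≤ 1 / 16 - g) →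
  ∀ (ω ω' : ℕ → Fin 16) (l : ℕ), (∀ m < l, ω m = ω' m) →
    |pt q ω - pt q ω'| ≤ ∏ m ∈ Finset.range l, q (ω m) ∧
    (ω l ≠ ω' l → g * ∏ m ∈ Finset.range l, q (ω m) ≤ |pt q ω - pt q ω'|)

/-- LIM. -/
def S_LIM : Prop := ∀ ρ0 ρ1 r : ℝ, 0 < ρ0 → 0 < ρ1 → 0 < r → ρ0 < 1 / 16 → ρ1 < 1 / 16 →
  r < 1 / 16 → dimH (limitSet EE (par ρ0 ρ1 r)) = dimH (KK ρ0 ρ1 r) ∧
    par ρ0 ρ1 r ∈ StronglyBaranski 2 (fun _ => Fin 16) ∧ par ρ0 ρ1 r ∈ Baranski 2 (fun _ => Fin 16)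

/-- GOODK: combinatorial lemma. -/
def S_GOODK : Prop := ∀ (l : ℕ → ℕ) (h : ℕ → ℝ) (B : ℝ), (∀ k, l k ≤ k) →
  (∀ k, l (k + 1) ≤ l k + 1) → Tendsto l atTop atTop → (∀ k, |h k| ≤ B) →
  ∀ (ε : ℝ) (k0 : ℕ), 0 < ε → ∃ k, k0 ≤ k ∧ h k ≤ h (l k) + ε

/-- CHOOSE: entropy bounds of binomial coefficients. -/
def S_CHOOSE : Prop := ∀ (N u : ℕ), 1 ≤ N → u ≤ N →
  Real.log (N.choose u) ≤ N * Real.binEntropy ((u : ℝ) / N) ∧
  N * Real.binEntropy ((u : ℝ) / N) ≤ Real.log (N.choose u) + Real.log (N + 1)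

/-- UP: upper bound. -/
def S_UP : Prop := ∀ ρ0 ρ1 r s : ℝ, 0 < ρ0 → 0 < ρ1 → ρ0 ≤ r → ρ1 ≤ r → r < 1 / 16 →
  (∀ θ ∈ Icc (0 : ℝ) 1, DD (-Real.log r) (-Real.log ρ0) (-Real.log ρ1) θ ≤ s) →
  dimH (KK ρ0 ρ1 r) ≤ ENNReal.ofReal s

/-- BLK: lower bound by blocks. -/
def S_BLK : Prop := ∀ (ρ0 ρ1 r : ℝ) (N u : ℕ), 0 < ρ0 → 0 < ρ1 → ρ0 ≤ r → ρ1 ≤ r → r < 1 / 16 →
  1 ≤ N → u ≤ N →
  ENNReal.ofReal (Real.log (N.choose u) / (N * (-Real.log r)) +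
    Real.log 8 / ((u : ℝ) / N * (-Real.log ρ0) + (1 - (u : ℝ) / N) * (-Real.log ρ1)))
    ≤ dimH (KK ρ0 ρ1 r)

/-- LOW: lower bound. -/
def S_LOW : Prop := ∀ ρ0 ρ1 r θ : ℝ, 0 < ρ0 → 0 < ρ1 → ρ0 ≤ r → ρ1 ≤ r → r < 1 / 16 →
  θ ∈ Icc (0 : ℝ) 1 →
  ENNReal.ofReal (DD (-Real.log r) (-Real.log ρ0) (-Real.log ρ1) θ) ≤ dimH (KK ρ0 ρ1 r)

/-- the function of `θ` with `lam = 1 / c`. -/
noncomputable def FF (κ0 κ1 lam θ : ℝ) : ℝ :=
  lam * Real.binEntropy θ + Real.log 8 / (θ * κ0 + (1 - θ) * κ1)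

/-- ANA: the degenerate maximum. -/
def S_ANA : Prop := ∃ κ0 κ1 D0 b C ε : ℝ, 3 < κ1 ∧ κ1 ≤ κ0 ∧ 0 < C ∧ 0 < ε ∧
  (∀ t ∈ Icc (0 : ℝ) ε, ∃ θ ∈ Icc (0 : ℝ) 1,
    D0 + b * t + C * t ^ ((4 : ℝ) / 3) ≤ FF κ0 κ1 (1 / 3 + t) θ) ∧
  (∀ η : ℝ, 0 < η → ∃ δ : ℝ, 0 < δ ∧ ∀ t ∈ Icc (0 : ℝ) δ, ∀ θ ∈ Icc (0 : ℝ) 1,
    FF κ0 κ1 (1 / 3 + t) θ ≤ D0 + b * t + η * t)

/-- NP: abstract obstruction to piecewise analyticity. -/
def S_NP : Prop := ∀ (V : Type) [NormedAddCommGroup V] [NormedSpace ℝ V] (F : V → ℝ) (S : Set V)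
  (γ : ℝ → V) (D0 b C ε : ℝ), AnalyticAt ℝ γ 0 → 0 < C → 0 < ε →
  (∀ t ∈ Icc (0 : ℝ) ε, γ t ∈ S) →
  (∀ t ∈ Icc (0 : ℝ) ε, D0 + b * t + C * t ^ ((4 : ℝ) / 3) ≤ F (γ t)) →
  (∀ η : ℝ, 0 < η → ∃ δ : ℝ, 0 < δ ∧ ∀ t ∈ Icc (0 : ℝ) δ, F (γ t) ≤ D0 + b * t + η * t) →
  ¬ PiecewiseAnalyticOn F S

end Pool.Agent.R660.BS
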