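import Mathlib
import Pool.Agent.R660.BS.Defs

/-! # Project BS, piece ANA: the degenerate maximum -/

open Set Filter Topology

namespace Pool.Agent.R660.BS.ANA

open Pool.Agent.R660.BS

noncomputable section

theorem mvt {F F' : ℝ → ℝ} {a b : ℝ} (hab : a < b) (hF : ∀ x ∈ Icc a b, HasDerivAt F (F' x) x) :
    ∃ c ∈ Ioo a b, F b - F a = F' c * (b - a) := by
  obtain ⟨c, hc, h⟩ := exists_hasDerivAt_eq_slope F F' hab
    (fun x hx => (hF x hx).continuousAt.continuousWithinAt)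
    (fun x hx => hF x (Ioo_subset_Icc_self hx))
  refine ⟨c, hc, ?_⟩
  rw [h]
  have : b - a ≠ 0 := by linarith
  field_simp

/-- `log ((1 - θ) / θ)` -/
def ll (θ : ℝ) : ℝ := Real.log (1 - θ) - Real.log θ

theorem ll_deriv {θ : ℝ} (h0 : 0 < θ) (h1 : θ < 1) : HasDerivAt ll (-1 / (1 - θ) - 1 / θ) θ := by
  have e1 : HasDerivAt (fun y : ℝ => 1 - y) (-1) θ := by
    simpa using (hasDerivAt_id θ).const_sub 1
  have e2 := (e1.log (by linarith : (1 : ℝ) - θ ≠ 0)).sub ((hasDerivAt_id θ).log (by simpa using h0.ne'))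
  exact e2

def ps (k θ : ℝ) : ℝ := 2 * k * ll θ - (1 + k * θ) / (θ * (1 - θ))

theorem ps_deriv (k : ℝ) {θ : ℝ} (h0 : 0 < θ) (h1 : θ < 1) :
    HasDerivAt (ps k) ((1 - 2 * (1 + k) * θ + k * θ ^ 2) / (θ ^ 2 * (1 - θ) ^ 2)) θ := by
  have h2 : (1 : ℝ) - θ ≠ 0 := by linarith
  have h3 : θ ≠ 0 := h0.ne'
  have e1 : HasDerivAt (fun y : ℝ => 1 - y) (-1) θ := by
    simpa using (hasDerivAt_id θ).const_sub 1
  have e2 : HasDerivAt (fun y : ℝ => y * (1 - y)) (1 * (1 - θ) + θ * (-1)) θ :=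
    (hasDerivAt_id θ).mul e1
  have e3 : HasDerivAt (fun y : ℝ => 1 + k * y) (k * 1) θ :=
    ((hasDerivAt_id θ).const_mul k).const_add 1
  have e4 := ((ll_deriv h0 h1).const_mul (2 * k)).sub (e3.div e2 (mul_ne_zero h3 h2))
  refine HasDerivAt.congr_deriv e4 ?_
  field_simp
  ring

def ph (k B θ : ℝ) : ℝ := ll θ * (1 + k * θ) ^ 2 - B * k

theorem ph_deriv (k B : ℝ) {θ : ℝ} (h0 : 0 < θ) (h1 : θ < 1) :
    HasDerivAt (ph k B) ((1 + k * θ) * ps k θ) θ := by
  have h2 : (1 : ℝ) - θ ≠ 0 := by linarith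
  have h3 : θ ≠ 0 := h0.ne'
  have e3 : HasDerivAt (fun y : ℝ => 1 + k * y) (k * 1) θ :=
    ((hasDerivAt_id θ).const_mul k).const_add 1
  have e4 := ((ll_deriv h0 h1).mul (e3.pow 2)).sub_const (B * k)
  refine HasDerivAt.congr_deriv e4 ?_
  unfold ps
  simp only [Pi.pow_apply, Nat.cast_ofNat, Nat.add_one_sub_one, pow_one]
  field_simp
  ring

def gg (k B θ : ℝ) : ℝ := Real.binEntropy θ + B / (1 + k * θ)

theorem gg_deriv {k B : ℝ} (hk : 0 < k) {θ : ℝ} (h0 : 0 < θ) (h1 : θ < 1) :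
    HasDerivAt (gg k B) (ph k B θ / (1 + k * θ) ^ 2) θ := by
  have h4 : (1 : ℝ) + k * θ ≠ 0 := by positivity
  have e3 : HasDerivAt (fun y : ℝ => 1 + k * y) (k * 1) θ :=
    ((hasDerivAt_id θ).const_mul k).const_add 1
  have e5 : HasDerivAt (fun y : ℝ => B / (1 + k * y)) ((0 * (1 + k * θ) - B * (k * 1)) / (1 + k * θ) ^ 2) θ :=
    (hasDerivAt_const θ B).div e3 h4
  have e4 := (Real.hasDerivAt_binEntropy h0.ne' h1.ne).add e5
  refine HasDerivAt.congr_deriv e4 ?_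
  unfold ph ll
  field_simp
  ring

theorem exists_theta : ∃ θ : ℝ, 1 / 10 ≤ θ ∧ θ ≤ 1 / 8 ∧ (1 - 2 * θ) * ll θ = 3 / 2 := by
  have hc : ContinuousOn (fun θ : ℝ => (1 - 2 * θ) * ll θ) (Icc (1 / 10) (1 / 8)) := by
    intro θ hθ
    have h0 : 0 < θ := by linarith [hθ.1]
    have h1 : θ < 1 := by linarith [hθ.2]
    have : ContinuousAt ll θ := (ll_deriv h0 h1).continuousAt
    exact (ContinuousAt.mul (by fun_prop) this).continuousWithinAt
  have h1 : (1 - 2 * (1 / 8 : ℝ)) * ll (1 / 8) ≤ 3 / 2 := by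
    unfold ll
    rw [← Real.log_div (by norm_num) (by norm_num)]
    have : Real.log ((1 - 1 / 8) / (1 / 8)) ≤ 2 := by
      rw [Real.log_le_iff_le_exp (by norm_num)]
      have e1 := Real.exp_one_gt_d9
      rw [show (2 : ℝ) = 1 + 1 by norm_num, Real.exp_add]
      nlinarith
    linarith
  have h2 : 3 / 2 ≤ (1 - 2 * (1 / 10 : ℝ)) * ll (1 / 10) := by
    unfold ll
    rw [← Real.log_div (by norm_num) (by norm_num)]
    have : 3 * Real.log 2 ≤ Real.log ((1 - 1 / 10) / (1 / 10)) := by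
      rw [show (3 : ℝ) * Real.log 2 = Real.log (2 ^ 3) by rw [Real.log_pow]; norm_num]
      exact Real.log_le_log (by norm_num) (by norm_num)
    have e1 := Real.log_two_gt_d9
    linarith
  obtain ⟨θ, hθ, h⟩ := intermediate_value_Icc' (by norm_num : (1 / 10 : ℝ) ≤ 1 / 8) hc ⟨h1, h2⟩
  exact ⟨θ, hθ.1, hθ.2, h⟩

/-! ### signs -/

section
variable {θ0 k B : ℝ}

theorem Qfact (h0 : 0 < θ0) (hkθ : k * θ0 * (2 - θ0) = 1 - 2 * θ0) (c : ℝ) :
    1 - 2 * (1 + k) * c + k * c ^ 2 = (c - θ0) * (k * c - 1 / θ0) := by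
  have h : θ0 ≠ 0 := h0.ne'
  field_simp
  linear_combination (-c) * hkθ

theorem Qneg (h0 : 0 < θ0) (h1 : θ0 ≤ 1 / 8) (hk : 0 < k)
    (hkθ : k * θ0 * (2 - θ0) = 1 - 2 * θ0) {c : ℝ} (hc : c < 1) : k * c - 1 / θ0 < 0 := by
  have h2 : k * θ0 < 1 := by nlinarith
  have h3 : k * c < k := by nlinarith
  have h4 : k < 1 / θ0 := by
    rw [lt_div_iff₀ h0]
    exact h2
  linarith

theorem ps_neg (h0 : 0 < θ0) (h1 : θ0 ≤ 1 / 8) (hk : 0 < k)
    (hkθ : k * θ0 * (2 - θ0) = 1 - 2 * θ0) (hps : ps k θ0 = 0) {θ : ℝ} (ht0 : 0 < θ) (ht1 : θ < 1)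
    (hne : θ ≠ θ0) : ps k θ < 0 := by
  rcases lt_or_gt_of_ne hne with h | h
  · obtain ⟨c, hc, he⟩ := mvt h (F := ps k) (fun x hx => ps_deriv k (by linarith [hx.1])
      (by linarith [hx.2]))
    have hc0 : 0 < c := by linarith [hc.1]
    have hc1 : 0 < 1 - c := by linarith [hc.2]
    rw [Qfact h0 hkθ, hps] at he
    have h2 := Qneg h0 h1 hk hkθ (show c < 1 by linarith [hc.2])
    have h3 : 0 < (c - θ0) * (k * c - 1 / θ0) := mul_pos_of_neg_of_neg (by linarith [hc.2]) h2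
    have h4 : 0 < (c - θ0) * (k * c - 1 / θ0) / (c ^ 2 * (1 - c) ^ 2) * (θ0 - θ) := by
      have : 0 < θ0 - θ := by linarith
      positivity
    linarith
  · obtain ⟨c, hc, he⟩ := mvt h (F := ps k) (fun x hx => ps_deriv k (by linarith [hx.1])
      (by linarith [hx.2]))
    have hc0 : 0 < c := by linarith [hc.1]
    have hc1 : 0 < 1 - c := by linarith [hc.2]
    rw [Qfact h0 hkθ, hps] at he
    have h2 := Qneg h0 h1 hk hkθ (show c < 1 by linarith [hc.2])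
    have h3 : 0 < (c - θ0) * -(k * c - 1 / θ0) := mul_pos (by linarith [hc.1]) (by linarith)
    have h4 : 0 < (c - θ0) * -(k * c - 1 / θ0) / (c ^ 2 * (1 - c) ^ 2) * (θ - θ0) := by
      have : 0 < θ - θ0 := by linarith
      positivity
    have h5 : (c - θ0) * (k * c - 1 / θ0) / (c ^ 2 * (1 - c) ^ 2) * (θ - θ0) =
        -((c - θ0) * -(k * c - 1 / θ0) / (c ^ 2 * (1 - c) ^ 2) * (θ - θ0)) := by ring
    rw [h5] at he
    linarith

theorem ph_pos (h0 : 0 < θ0) (h1 : θ0 ≤ 1 / 8) (hk : 0 < k)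
    (hkθ : k * θ0 * (2 - θ0) = 1 - 2 * θ0) (hps : ps k θ0 = 0) (hph : ph k B θ0 = 0) {θ : ℝ}
    (ht0 : 0 < θ) (h : θ < θ0) : 0 < ph k B θ := by
  obtain ⟨c, hc, he⟩ := mvt h (F := ph k B) (fun x hx => ph_deriv k B (by linarith [hx.1])
    (by linarith [hx.2]))
  have hc0 : 0 < c := by linarith [hc.1]
  have h2 := ps_neg h0 h1 hk hkθ hps hc0 (by linarith [hc.2]) hc.2.ne
  have h3 : 0 < (1 + k * c) * -ps k c * (θ0 - θ) := by
    have : 0 < θ0 - θ := by linarith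
    have : 0 < -ps k c := by linarith
    positivity
  have h4 : (1 + k * c) * ps k c * (θ0 - θ) = -((1 + k * c) * -ps k c * (θ0 - θ)) := by ring
  rw [hph, h4] at he
  linarith

theorem ph_neg (h0 : 0 < θ0) (h1 : θ0 ≤ 1 / 8) (hk : 0 < k)
    (hkθ : k * θ0 * (2 - θ0) = 1 - 2 * θ0) (hps : ps k θ0 = 0) (hph : ph k B θ0 = 0) {θ : ℝ}
    (ht1 : θ < 1) (h : θ0 < θ) : ph k B θ < 0 := by
  obtain ⟨c, hc, he⟩ := mvt h (F := ph k B) (fun x hx => ph_deriv k B (by linarith [hx.1])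
    (by linarith [hx.2]))
  have hc0 : 0 < c := by linarith [hc.1]
  have h2 := ps_neg h0 h1 hk hkθ hps hc0 (by linarith [hc.2]) hc.1.ne'
  have h3 : 0 < (1 + k * c) * -ps k c * (θ - θ0) := by
    have : 0 < θ - θ0 := by linarith
    have : 0 < -ps k c := by linarith
    positivity
  have h4 : (1 + k * c) * ps k c * (θ - θ0) = -((1 + k * c) * -ps k c * (θ - θ0)) := by ring
  rw [hph, h4] at he
  linarith

theorem gg_cont (hk : 0 < k) : ContinuousOn (gg k B) (Icc 0 1) := by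
  refine Real.binEntropy_continuous.continuousOn.add ?_
  refine continuousOn_const.div (by fun_prop) fun x hx => ?_
  have := hx.1
  positivity

theorem gg_lt (h0 : 0 < θ0) (h1 : θ0 ≤ 1 / 8) (hk : 0 < k)
    (hkθ : k * θ0 * (2 - θ0) = 1 - 2 * θ0) (hps : ps k θ0 = 0) (hph : ph k B θ0 = 0) {θ : ℝ}
    (hθ : θ ∈ Icc (0 : ℝ) 1) (hne : θ ≠ θ0) : gg k B θ < gg k B θ0 := by
  rcases lt_or_gt_of_ne hne with h | h
  · have hmono : StrictMonoOn (gg k B) (Icc 0 θ0) := by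
      refine strictMonoOn_of_deriv_pos (convex_Icc 0 θ0)
        ((gg_cont hk).mono (Icc_subset_Icc le_rfl (by linarith))) fun x hx => ?_
      rw [interior_Icc] at hx
      rw [(gg_deriv hk hx.1 (by linarith [hx.2])).deriv]
      have h2 := ph_pos (B := B) h0 h1 hk hkθ hps hph hx.1 hx.2
      have : 0 < 1 + k * x := by
        have := hx.1
        positivity
      positivity
    exact hmono ⟨hθ.1, h.le⟩ ⟨h0.le, le_rfl⟩ h
  · have hanti : StrictAntiOn (gg k B) (Icc θ0 1) := by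
      refine strictAntiOn_of_deriv_neg (convex_Icc θ0 1)
        ((gg_cont hk).mono (Icc_subset_Icc h0.le le_rfl)) fun x hx => ?_
      rw [interior_Icc] at hx
      rw [(gg_deriv hk (by linarith [hx.1]) hx.2).deriv]
      have h2 := ph_neg (B := B) h0 h1 hk hkθ hps hph hx.2 hx.1
      have : 0 < 1 + k * x := by
        have : 0 < x := by linarith [hx.1]
        positivity
      exact div_neg_of_neg_of_pos h2 (by positivity)
    exact hanti ⟨le_rfl, by linarith⟩ ⟨h.le, hθ.2⟩ h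

/-! ### quantitative bounds to the right of `θ0` -/

theorem ps_low (h0 : 1 / 10 ≤ θ0) (_h1 : θ0 ≤ 1 / 8) (hk : 0 < k)
    (hkθ : k * θ0 * (2 - θ0) = 1 - 2 * θ0) (hps : ps k θ0 = 0) {θ : ℝ} (h : θ0 < θ)
    (ht : θ ≤ 1 / 4) : -(2000 * (θ - θ0) ^ 2) ≤ ps k θ := by
  have hp : 0 < θ0 := by linarith
  obtain ⟨c, hc, he⟩ := mvt h (F := ps k) (fun x hx => ps_deriv k (by linarith [hx.1])
    (by linarith [hx.2]))
  have hc0 : 0 < c := by linarith [hc.1]
  have hc1 : 0 < 1 - c := by linarith [hc.2]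
  rw [Qfact hp hkθ, hps, sub_zero] at he
  have hkc : 0 < k * c := by positivity
  have h2 : -(10 * (c - θ0)) ≤ (c - θ0) * (k * c - 1 / θ0) := by
    have h3 : 1 / θ0 ≤ 10 := by
      rw [div_le_iff₀ hp]
      linarith
    nlinarith [hc.1]
  have h4 : 1 / 200 ≤ c ^ 2 * (1 - c) ^ 2 := by
    have e1 : (1 / 10) ^ 2 ≤ c ^ 2 := pow_le_pow_left₀ (by norm_num) (by linarith [hc.1]) 2
    have e2 : (3 / 4) ^ 2 ≤ (1 - c) ^ 2 := pow_le_pow_left₀ (by norm_num) (by linarith [hc.2]) 2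
    calc (1 : ℝ) / 200 ≤ (1 / 10) ^ 2 * (3 / 4) ^ 2 := by norm_num
      _ ≤ c ^ 2 * (1 - c) ^ 2 := by gcongr
  have h5 : -(2000 * (c - θ0)) ≤ (c - θ0) * (k * c - 1 / θ0) / (c ^ 2 * (1 - c) ^ 2) := by
    rw [le_div_iff₀ (by positivity)]
    have h6 : 10 * (c - θ0) ≤ 2000 * (c - θ0) * (c ^ 2 * (1 - c) ^ 2) := by
      have : 0 ≤ c - θ0 := by linarith [hc.1]
      nlinarith
    linarith
  rw [he]
  have h7 : 0 < θ - θ0 := by linarith
  have h8 := mul_le_mul_of_nonneg_right h5 h7.le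
  refine le_trans ?_ h8
  have h9 : c - θ0 ≤ θ - θ0 := by linarith [hc.2]
  nlinarith

theorem ph_low (h0 : 1 / 10 ≤ θ0) (h1 : θ0 ≤ 1 / 8) (hk : 0 < k)
    (hkθ : k * θ0 * (2 - θ0) = 1 - 2 * θ0) (hps : ps k θ0 = 0) (hph : ph k B θ0 = 0) {θ : ℝ}
    (h : θ0 < θ) (ht : θ ≤ 1 / 4) : -(2000 * (1 + k) * (θ - θ0) ^ 3) ≤ ph k B θ := by
  obtain ⟨c, hc, he⟩ := mvt h (F := ph k B) (fun x hx => ph_deriv k B (by linarith [hx.1])
    (by linarith [hx.2]))
  have hc0 : 0 < c := by linarith [hc.1]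
  have h2 := ps_low h0 h1 hk hkθ hps hc.1 (by linarith [hc.2])
  rw [hph, sub_zero] at he
  rw [he]
  have h3 : 0 < θ - θ0 := by linarith
  have h4 : 0 ≤ c - θ0 := by linarith [hc.1]
  have h5 : c - θ0 ≤ θ - θ0 := by linarith [hc.2]
  have h6 : (c - θ0) ^ 2 ≤ (θ - θ0) ^ 2 := pow_le_pow_left₀ h4 h5 2
  have h7 : 1 + k * c ≤ 1 + k := by
    have : c ≤ 1 := by linarith [hc.2]
    nlinarith
  have h8 : (1 + k * c) * -ps k c ≤ (1 + k) * (2000 * (θ - θ0) ^ 2) := by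
    have e1 : -ps k c ≤ 2000 * (θ - θ0) ^ 2 := by linarith
    calc (1 + k * c) * -ps k c ≤ (1 + k * c) * (2000 * (θ - θ0) ^ 2) :=
          mul_le_mul_of_nonneg_left e1 (by positivity)
      _ ≤ (1 + k) * (2000 * (θ - θ0) ^ 2) := mul_le_mul_of_nonneg_right h7 (by positivity)
  have h9 := mul_le_mul_of_nonneg_right h8 h3.le
  have e2 : (1 + k) * (2000 * (θ - θ0) ^ 2) * (θ - θ0) = 2000 * (1 + k) * (θ - θ0) ^ 3 := by ring
  have e3 : (1 + k * c) * -ps k c * (θ - θ0) = -((1 + k * c) * ps k c * (θ - θ0)) := by ring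
  rw [e2, e3] at h9
  linarith

theorem gg_low (h0 : 1 / 10 ≤ θ0) (h1 : θ0 ≤ 1 / 8) (hk : 0 < k)
    (hkθ : k * θ0 * (2 - θ0) = 1 - 2 * θ0) (hps : ps k θ0 = 0) (hph : ph k B θ0 = 0) {x : ℝ}
    (hx0 : 0 ≤ x) (hx1 : x ≤ 1 / 8) :
    gg k B θ0 - 2000 * (1 + k) * x ^ 4 ≤ gg k B (θ0 + x) := by
  rcases hx0.eq_or_lt with rfl | hx
  · simp
  have hp : 0 < θ0 := by linarith
  have h : θ0 < θ0 + x := by linarith
  obtain ⟨c, hc, he⟩ := mvt h (F := gg k B) (fun x hx => gg_deriv hk (by linarith [hx.1])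
    (by linarith [hx.2]))
  have hc0 : 0 < c := by linarith [hc.1]
  have h2 := ph_low (B := B) h0 h1 hk hkθ hps hph hc.1 (by linarith [hc.2])
  have h3 := ph_neg (B := B) hp h1 hk hkθ hps hph (by linarith [hc.2]) hc.1
  rw [add_sub_cancel_left] at he
  have h4 : 0 ≤ c - θ0 := by linarith [hc.1]
  have h5 : c - θ0 ≤ x := by linarith [hc.2]
  have h6 : (c - θ0) ^ 3 ≤ x ^ 3 := pow_le_pow_left₀ h4 h5 3
  have h7 : -ph k B c / (1 + k * c) ^ 2 ≤ 2000 * (1 + k) * x ^ 3 := by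
    have e1 : 1 ≤ (1 + k * c) ^ 2 := by
      have : 0 < k * c := by positivity
      nlinarith
    have e2 : -ph k B c / (1 + k * c) ^ 2 ≤ -ph k B c := div_le_self (by linarith) e1
    have e3 : 2000 * (1 + k) * (c - θ0) ^ 3 ≤ 2000 * (1 + k) * x ^ 3 := by gcongr
    linarith
  have h8 := mul_le_mul_of_nonneg_right h7 hx.le
  have e2 : 2000 * (1 + k) * x ^ 3 * x = 2000 * (1 + k) * x ^ 4 := by ring
  have e3 : -ph k B c / (1 + k * c) ^ 2 * x = -(ph k B c / (1 + k * c) ^ 2 * x) := by ring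
  rw [e2, e3] at h8
  linarith

theorem ll_low (h0 : 1 / 10 ≤ θ0) {θ : ℝ} (h : θ0 < θ) (ht : θ ≤ 1 / 4) :
    ll θ0 - 14 * (θ - θ0) ≤ ll θ := by
  obtain ⟨c, hc, he⟩ := mvt h (F := ll) (fun x hx => ll_deriv (by linarith [hx.1])
    (by linarith [hx.2]))
  have hc0 : 0 < c := by linarith [hc.1]
  have hc1 : 0 < 1 - c := by linarith [hc.2]
  have h2 : -14 ≤ -1 / (1 - c) - 1 / c := by
    have e1 : 1 / c ≤ 10 := by
      rw [div_le_iff₀ hc0]
      linarith [hc.1]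
    have e2 : 1 / (1 - c) ≤ 4 := by
      rw [div_le_iff₀ hc1]
      linarith [hc.2]
    have e3 : -1 / (1 - c) = -(1 / (1 - c)) := by ring
    rw [e3]
    linarith
  have h3 := mul_le_mul_of_nonneg_right h2 (show 0 ≤ θ - θ0 by linarith)
  linarith

theorem H_low (h0 : 1 / 10 ≤ θ0) (h1 : θ0 ≤ 1 / 8) {x : ℝ} (hx0 : 0 ≤ x) (hx1 : x ≤ 1 / 8) :
    Real.binEntropy θ0 + ll θ0 * x - 14 * x ^ 2 ≤ Real.binEntropy (θ0 + x) := by
  rcases hx0.eq_or_lt with rfl | hx
  · simp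
  have h : θ0 < θ0 + x := by linarith
  obtain ⟨c, hc, he⟩ := mvt h (F := Real.binEntropy) (F' := ll)
    (fun x hx => Real.hasDerivAt_binEntropy (by linarith [hx.1]) (by linarith [hx.2]))
  rw [add_sub_cancel_left] at he
  have h2 := ll_low h0 hc.1 (by linarith [hc.2])
  have h5 : c - θ0 ≤ x := by linarith [hc.2]
  have h6 : ll θ0 - 14 * x ≤ ll c := by linarith
  have h7 := mul_le_mul_of_nonneg_right h6 hx.le
  nlinarith

end

theorem main : S_ANA := by
  obtain ⟨θ0, ha, hb, hL⟩ := exists_theta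
  have hp : 0 < θ0 := by linarith
  have h2θ : 0 < 2 - θ0 := by linarith
  have h12 : 0 < 1 - 2 * θ0 := by linarith
  have h1θ : 0 < 1 - θ0 := by linarith
  set k := (1 - 2 * θ0) / (θ0 * (2 - θ0)) with hk
  set B := (27 / 2) * θ0 * (1 - θ0) ^ 2 / ((1 - 2 * θ0) ^ 2 * (2 - θ0)) with hB
  have hk0 : 0 < k := by positivity
  have hB0 : 0 < B := by positivity
  have hkθ : k * θ0 * (2 - θ0) = 1 - 2 * θ0 := by
    rw [hk]
    field_simp
  have hLeq : ll θ0 = 3 / (2 * (1 - 2 * θ0)) := by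
    field_simp
    linarith
  have hps : ps k θ0 = 0 := by
    unfold ps
    rw [hLeq, hk]
    field_simp
    ring
  have hph : ph k B θ0 = 0 := by
    unfold ph
    rw [hLeq, hk, hB]
    field_simp
    ring
  have hL32 : 3 / 2 ≤ ll θ0 := by
    rw [hLeq, div_le_div_iff₀ (by norm_num) (by positivity)]
    linarith
  have hB13 : B ≤ 13 / 10 := by
    rw [hB, div_le_iff₀ (by positivity)]
    have e1 : (3 / 4) ^ 2 ≤ (1 - 2 * θ0) ^ 2 := pow_le_pow_left₀ (by norm_num) (by linarith) 2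
    have e2 : (1 - θ0) ^ 2 ≤ (9 / 10) ^ 2 := pow_le_pow_left₀ h1θ.le (by linarith) 2
    have e3 : (3 / 4) ^ 2 * (15 / 8) ≤ (1 - 2 * θ0) ^ 2 * (2 - θ0) := by
      refine mul_le_mul e1 (by linarith) (by norm_num) (by positivity)
    have e4 : 27 / 2 * θ0 * (1 - θ0) ^ 2 ≤ 27 / 2 * (1 / 8) * (9 / 10) ^ 2 := by
      gcongr
    norm_num at e3 e4 ⊢
    linarith
  have hlog8 : 2 < Real.log 8 := by
    have : Real.log 8 = 3 * Real.log 2 := by
      rw [show (8 : ℝ) = 2 ^ 3 by norm_num, Real.log_pow]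
      norm_num
    have e1 := Real.log_two_gt_d9
    linarith
  set κ1 := 3 * Real.log 8 / B with hκ1
  have hκ1pos : 3 < κ1 := by
    rw [hκ1, lt_div_iff₀ hB0]
    linarith
  have hFF : ∀ t θ : ℝ, 0 ≤ θ → FF ((1 + k) * κ1) κ1 (1 / 3 + t) θ =
      gg k B θ / 3 + t * Real.binEntropy θ := by
    intro t θ hθ
    unfold FF gg
    have e1 : θ * ((1 + k) * κ1) + (1 - θ) * κ1 = κ1 * (1 + k * θ) := by ring
    have e2 : 0 < 1 + k * θ := by positivity
    rw [e1, hκ1]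
    have e3 : Real.log 8 ≠ 0 := by linarith
    have e4 : B ≠ 0 := hB0.ne'
    have e5 : 1 + k * θ ≠ 0 := e2.ne'
    have e6 : Real.log 8 / (3 * Real.log 8 / B * (1 + k * θ)) = B / (1 + k * θ) / 3 := by
      field_simp
    rw [e6]
    ring
  set A := 2000 * (1 + k) with hA
  have hA0 : 0 < A := by positivity
  set β := min 1 (3 / (2 * A)) with hβ
  have hβ0 : 0 < β := by positivity
  have hβ1 : β ≤ 1 := min_le_left _ _
  have hβA : A * β ≤ 3 / 2 := by
    calc A * β ≤ A * (3 / (2 * A)) := by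
          gcongr
          exact min_le_right _ _
      _ = 3 / 2 := by field_simp
  have hH0 : 0 ≤ Real.binEntropy θ0 := Real.binEntropy_nonneg hp.le (by linarith)
  refine ⟨(1 + k) * κ1, κ1, gg k B θ0 / 3, Real.binEntropy θ0, β / 2, (1 / 28) ^ 3, hκ1pos,
    by nlinarith, by positivity, by positivity, ?_, ?_⟩
  · intro t ht
    set s := t ^ ((1 : ℝ) / 3) with hs
    have hs0 : 0 ≤ s := Real.rpow_nonneg ht.1 _
    have hs3 : s ^ 3 = t := by
      rw [hs, ← Real.rpow_natCast, ← Real.rpow_mul ht.1]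
      norm_num
    have hs4 : t ^ ((4 : ℝ) / 3) = s ^ 4 := by
      rw [hs, ← Real.rpow_natCast, ← Real.rpow_mul ht.1]
      norm_num
    have hs28 : s ≤ 1 / 28 := by
      by_contra hc
      push Not at hc
      have h3 : (1 / 28 : ℝ) ^ 3 < s ^ 3 := pow_lt_pow_left₀ hc (by norm_num) (by norm_num)
      rw [hs3] at h3
      linarith [ht.2]
    set x := β * s with hx
    have hx0 : 0 ≤ x := by positivity
    have hx28 : x ≤ 1 / 28 := by nlinarith
    refine ⟨θ0 + x, ⟨by linarith, by linarith⟩, ?_⟩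
    rw [hFF t _ (by linarith)]
    have g1 := gg_low (B := B) ha hb hk0 hkθ hps hph hx0 (by linarith)
    have g2 := H_low ha hb hx0 (by linarith)
    rw [hs4]
    have g3 := mul_le_mul_of_nonneg_left g2 ht.1
    have g4 : A * x ^ 4 / 3 ≤ t * x / 2 := by
      have e1 : A * x ^ 4 / 3 = (A * β) * β ^ 2 * (t * x) / 3 := by
        rw [hx, ← hs3]
        ring
      rw [e1]
      have e2 : β ^ 2 ≤ 1 := by nlinarith
      have e3 : 0 ≤ t * x := mul_nonneg ht.1 hx0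
      have e4 : (A * β) * β ^ 2 ≤ 3 / 2 * 1 := mul_le_mul hβA e2 (by positivity) (by norm_num)
      have e5 := mul_le_mul_of_nonneg_right e4 e3
      linarith
    have g5 : t * (14 * x ^ 2) ≤ t * x / 2 := by
      have e3 : 0 ≤ t * x := mul_nonneg ht.1 hx0
      have e4 : t * (14 * x ^ 2) = 14 * x * (t * x) := by ring
      rw [e4]
      nlinarith
    have g6 : t * (3 / 2 * x) ≤ t * (ll θ0 * x) := by
      refine mul_le_mul_of_nonneg_left ?_ ht.1
      exact mul_le_mul_of_nonneg_right hL32 hx0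
    have g7 : β / 2 * s ^ 4 = t * x / 2 := by
      rw [hx, ← hs3]
      ring
    rw [g7]
    have g8 : t * (Real.binEntropy θ0 + ll θ0 * x - 14 * x ^ 2) =
        t * Real.binEntropy θ0 + t * (ll θ0 * x) - t * (14 * x ^ 2) := by ring
    rw [g8] at g3
    have g9 : Real.binEntropy θ0 * t = t * Real.binEntropy θ0 := mul_comm _ _
    linarith
  · intro η hη
    have hcont : ContinuousAt Real.binEntropy θ0 := Real.binEntropy_continuous.continuousAt
    obtain ⟨r, hr, hrb⟩ := Metric.continuousAt_iff.mp hcont η hη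
    set Kc : Set ℝ := Icc (0 : ℝ) 1 ∩ {θ | r ≤ |θ - θ0|} with hKc
    have hKcc : IsCompact Kc := by
      refine isCompact_Icc.inter_right ?_
      exact isClosed_le continuous_const (by fun_prop)
    have hle : ∀ θ ∈ Icc (0 : ℝ) 1, gg k B θ ≤ gg k B θ0 := by
      intro θ hθ
      by_cases h : θ = θ0
      · rw [h]
      · exact (gg_lt hp hb hk0 hkθ hps hph hθ h).le
    have hnear : ∀ θ ∈ Icc (0 : ℝ) 1, θ ∉ Kc → Real.binEntropy θ ≤ Real.binEntropy θ0 + η := by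
      intro θ hθ hn
      have h1 : |θ - θ0| < r := by
        by_contra hc
        push Not at hc
        exact hn ⟨hθ, hc⟩
      have h2 := hrb (x := θ) (by rwa [Real.dist_eq])
      rw [Real.dist_eq] at h2
      linarith [(abs_lt.mp h2).2]
    have hgood : ∀ t : ℝ, 0 ≤ t → ∀ θ ∈ Icc (0 : ℝ) 1, θ ∉ Kc →
        FF ((1 + k) * κ1) κ1 (1 / 3 + t) θ ≤ gg k B θ0 / 3 + Real.binEntropy θ0 * t + η * t := by
      intro t ht θ hθ hn
      rw [hFF t θ hθ.1]
      have h1 := hle θ hθ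
      have h2 := mul_le_mul_of_nonneg_left (hnear θ hθ hn) ht
      nlinarith
    rcases Kc.eq_empty_or_nonempty with he | hne
    · refine ⟨1, one_pos, fun t ht θ hθ => hgood t ht.1 θ hθ ?_⟩
      rw [he]
      exact notMem_empty θ
    · obtain ⟨θm, hm, hmax⟩ := hKcc.exists_isMaxOn hne ((gg_cont (B := B) hk0).mono inter_subset_left)
      have hmne : θm ≠ θ0 := by
        intro h
        have h1 : r ≤ |θm - θ0| := hm.2
        rw [h, sub_self, abs_zero] at h1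
        linarith
      have hlt := gg_lt (B := B) hp hb hk0 hkθ hps hph hm.1 hmne
      refine ⟨(gg k B θ0 - gg k B θm) / 3, by linarith, fun t ht θ hθ => ?_⟩
      by_cases hin : θ ∈ Kc
      · rw [hFF t θ hθ.1]
        have h1 : gg k B θ ≤ gg k B θm := hmax hin
        have h2 : Real.binEntropy θ ≤ 1 := by
          have e1 := Real.binEntropy_le_log_two (p := θ)
          have e2 := Real.log_two_lt_d9
          linarith
        have h3 : t * Real.binEntropy θ ≤ t := by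
          have := mul_le_mul_of_nonneg_left h2 ht.1
          linarith
        have h4 : 0 ≤ Real.binEntropy θ0 * t := mul_nonneg hH0 ht.1
        have h5 : 0 ≤ η * t := mul_nonneg hη.le ht.1
        linarith [ht.2]
      · exact hgood t ht.1 θ hθ hin

end

end Pool.Agent.R660.BS.ANA
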