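import Pool.Agent.R660.BS.Defs

/-! # BLK: lower bound of the Hausdorff dimension by block measures -/

open Set Filter Topology MeasureTheory ProbabilityTheory
open scoped ENNReal NNReal

namespace Pool.Agent.R660.BS.BLK

/-! ### mass distribution on a product of two symbolic spaces -/

lemma unif_singleton {P : Type} [Fintype P] [Nonempty P] [MeasurableSpace P]
    [MeasurableSingletonClass P] (p : P) {x : ℝ} (hx : x * Fintype.card P = 1) :
    uniformOn (univ : Set P) {p} = ENNReal.ofReal x := by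
  have hc : (0 : ℝ) < Fintype.card P := by exact_mod_cast Fintype.card_pos
  have hx' : x = (Fintype.card P : ℝ)⁻¹ := eq_inv_of_mul_eq_one_left hx
  rw [uniformOn_univ, Measure.count_singleton, hx', ENNReal.ofReal_inv_of_pos hc,
    ENNReal.ofReal_natCast, one_div]

lemma cyl {P : Type} [Fintype P] [Nonempty P] [MeasurableSpace P]
    [MeasurableSingletonClass P] (p : ℕ → P) (k : ℕ) {x : ℝ} (hx0 : 0 ≤ x)
    (hx : x * Fintype.card P = 1) :
    Measure.infinitePi (fun _ : ℕ => uniformOn (univ : Set P)) {a | ∀ j < k, a j = p j} =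
      ENNReal.ofReal (x ^ k) := by
  have h1 : {a : ℕ → P | ∀ j < k, a j = p j} = Set.pi (Finset.range k) (fun j => {p j}) := by
    ext a
    simp only [Set.mem_ofPred_eq, Set.mem_pi, Finset.coe_range, Set.mem_Iio, Set.mem_singleton_iff]
  rw [h1, Measure.infinitePi_pi _ (fun j _ => measurableSet_singleton _)]
  rw [Finset.prod_congr rfl (fun j _ => unif_singleton (p j) hx), Finset.prod_const,
    Finset.card_range, ENNReal.ofReal_pow hx0]

lemma est {X : Type*} [MetricSpace X]
    {P Q : Type} [Fintype P] [Fintype Q] [Nonempty P] [Nonempty Q] [MeasurableSpace P]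
    [MeasurableSpace Q] [MeasurableSingletonClass P] [MeasurableSingletonClass Q]
    (F : (ℕ → P) × (ℕ → Q) → X) (g R W α β : ℝ) (hg : 0 < g)
    (hR : 0 < R) (hR1 : R < 1) (hW : 0 < W) (hW1 : W < 1)
    (h1 : ∀ (k : ℕ) (z z' : (ℕ → P) × (ℕ → Q)), (∃ j < k, z.1 j ≠ z'.1 j) →
      g * R ^ k ≤ dist (F z) (F z'))
    (h2 : ∀ (k : ℕ) (z z' : (ℕ → P) × (ℕ → Q)), (∃ j < k, z.2 j ≠ z'.2 j) →
      g * W ^ k ≤ dist (F z) (F z'))
    (hα : R ^ α * Fintype.card P = 1) (hβ : W ^ β * Fintype.card Q = 1) (hα0 : 0 ≤ α) (hβ0 : 0 ≤ β)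
    (T : Set X) (e : ℝ) (he : 0 < e) (heg : e < g) (hT : ∀ x ∈ T, ∀ y ∈ T, dist x y < e) :
    ((Measure.infinitePi (fun _ : ℕ => uniformOn (univ : Set P))).prod
      (Measure.infinitePi (fun _ : ℕ => uniformOn (univ : Set Q)))) (F ⁻¹' T) ≤
    ENNReal.ofReal (Fintype.card P * Fintype.card Q * (e / g) ^ (α + β)) := by
  rcases (F ⁻¹' T).eq_empty_or_nonempty with h0 | ⟨z0, hz0⟩
  · rw [h0, measure_empty]; exact bot_le
  have heg0 : 0 < e / g := div_pos he hg
  have heg1 : e / g ≤ 1 := by rw [div_le_one hg]; exact heg.le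
  obtain ⟨k, hk1, hk2⟩ := exists_nat_pow_near_of_lt_one heg0 heg1 hR hR1
  obtain ⟨l, hl1, hl2⟩ := exists_nat_pow_near_of_lt_one heg0 heg1 hW hW1
  rw [div_le_iff₀ hg] at hk2 hl2
  have hsub : F ⁻¹' T ⊆ {a | ∀ j < k, a j = z0.1 j} ×ˢ {b | ∀ j < l, b j = z0.2 j} := by
    intro z hz
    have hd := hT _ hz _ hz0
    constructor
    · intro j hj
      by_contra hne
      have := h1 k z z0 ⟨j, hj, hne⟩
      linarith
    · intro j hj
      by_contra hne
      have := h2 l z z0 ⟨j, hj, hne⟩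
      linarith
  have hcP : (0 : ℝ) < Fintype.card P := by exact_mod_cast Fintype.card_pos
  have hcQ : (0 : ℝ) < Fintype.card Q := by exact_mod_cast Fintype.card_pos
  have hRα : 0 < R ^ α := Real.rpow_pos_of_pos hR _
  have hWβ : 0 < W ^ β := Real.rpow_pos_of_pos hW _
  refine (measure_mono hsub).trans ?_
  rw [Measure.prod_prod, cyl _ _ hRα.le hα, cyl _ _ hWβ.le hβ,
    ← ENNReal.ofReal_mul (pow_nonneg hRα.le _)]
  apply ENNReal.ofReal_le_ofReal
  have hA : (R ^ α) ^ k ≤ Fintype.card P * (e / g) ^ α := by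
    have e1 : (R ^ α) ^ k = Fintype.card P * (R ^ α) ^ (k + 1) := by
      rw [pow_succ]
      calc (R ^ α) ^ k = (R ^ α) ^ k * (R ^ α * Fintype.card P) := by rw [hα, mul_one]
        _ = _ := by ring
    have e2 : (R ^ α) ^ (k + 1) = (R ^ (k + 1)) ^ α := by
      rw [← Real.rpow_natCast (R ^ α), ← Real.rpow_mul hR.le, mul_comm, Real.rpow_mul hR.le,
        Real.rpow_natCast]
    rw [e1, e2]
    exact mul_le_mul_of_nonneg_left (Real.rpow_le_rpow (pow_nonneg hR.le _) hk1.le hα0) hcP.le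
  have hB : (W ^ β) ^ l ≤ Fintype.card Q * (e / g) ^ β := by
    have e1 : (W ^ β) ^ l = Fintype.card Q * (W ^ β) ^ (l + 1) := by
      rw [pow_succ]
      calc (W ^ β) ^ l = (W ^ β) ^ l * (W ^ β * Fintype.card Q) := by rw [hβ, mul_one]
        _ = _ := by ring
    have e2 : (W ^ β) ^ (l + 1) = (W ^ (l + 1)) ^ β := by
      rw [← Real.rpow_natCast (W ^ β), ← Real.rpow_mul hW.le, mul_comm, Real.rpow_mul hW.le,
        Real.rpow_natCast]
    rw [e1, e2]
    exact mul_le_mul_of_nonneg_left (Real.rpow_le_rpow (pow_nonneg hW.le _) hl1.le hβ0) hcQ.le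
  calc (R ^ α) ^ k * (W ^ β) ^ l ≤
      (Fintype.card P * (e / g) ^ α) * (Fintype.card Q * (e / g) ^ β) :=
        mul_le_mul hA hB (pow_nonneg hWβ.le _) (by positivity)
    _ = Fintype.card P * Fintype.card Q * (e / g) ^ (α + β) := by
        rw [Real.rpow_add heg0]; ring

lemma mass {X : Type*} [MetricSpace X] [MeasurableSpace X] [BorelSpace X]
    {P Q : Type} [Fintype P] [Fintype Q] [Nonempty P] [Nonempty Q] [MeasurableSpace P]
    [MeasurableSpace Q] [MeasurableSingletonClass P] [MeasurableSingletonClass Q]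
    (F : (ℕ → P) × (ℕ → Q) → X) (hF : Measurable F) (g R W α β : ℝ) (hg : 0 < g)
    (hR : 0 < R) (hR1 : R < 1) (hW : 0 < W) (hW1 : W < 1)
    (h1 : ∀ (k : ℕ) (z z' : (ℕ → P) × (ℕ → Q)), (∃ j < k, z.1 j ≠ z'.1 j) →
      g * R ^ k ≤ dist (F z) (F z'))
    (h2 : ∀ (k : ℕ) (z z' : (ℕ → P) × (ℕ → Q)), (∃ j < k, z.2 j ≠ z'.2 j) →
      g * W ^ k ≤ dist (F z) (F z'))
    (hα : R ^ α * Fintype.card P = 1) (hβ : W ^ β * Fintype.card Q = 1) (hα0 : 0 ≤ α)
    (hβ0 : 0 < β) : ENNReal.ofReal (α + β) ≤ dimH (range F) := by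
  set μ := (Measure.infinitePi (fun _ : ℕ => uniformOn (univ : Set P))).prod
      (Measure.infinitePi (fun _ : ℕ => uniformOn (univ : Set Q))) with hμ
  have hcP : (0 : ℝ) < Fintype.card P := by exact_mod_cast Fintype.card_pos
  have hcQ : (0 : ℝ) < Fintype.card Q := by exact_mod_cast Fintype.card_pos
  set s : ℝ := α + β with hs
  have hs0 : 0 < s := by positivity
  set C : ℝ := Fintype.card P * Fintype.card Q * (1 / g) ^ s with hC
  have hC0 : 0 < C := by positivity
  have key : ∀ T : Set X, Metric.ediam T ≤ ENNReal.ofReal (g / 2) →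
      (μ.map F) T ≤ ENNReal.ofReal C * Metric.ediam T ^ s := by
    intro T hT
    have hfin : Metric.ediam T ≠ ∞ := (hT.trans_lt ENNReal.ofReal_lt_top).ne
    set δ : ℝ := (Metric.ediam T).toReal with hδ
    have hδ0 : 0 ≤ δ := ENNReal.toReal_nonneg
    have hδg : δ < g := by
      have : δ ≤ g / 2 := ENNReal.toReal_le_of_le_ofReal (by positivity) hT
      linarith
    have hdist : ∀ x ∈ closure T, ∀ y ∈ closure T, dist x y ≤ δ := by
      intro x hx y hy
      rw [dist_edist, hδ]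
      apply ENNReal.toReal_mono hfin
      rw [← Metric.ediam_closure]
      exact Metric.edist_le_ediam_of_mem hx hy
    have hle : (μ.map F) T ≤ μ (F ⁻¹' closure T) := by
      rw [← Measure.map_apply hF isClosed_closure.measurableSet]
      exact measure_mono subset_closure
    have hev : ∀ᶠ e in 𝓝[>] δ, (μ.map F) T ≤
        ENNReal.ofReal (Fintype.card P * Fintype.card Q * (e / g) ^ s) := by
      filter_upwards [Ioo_mem_nhdsGT hδg] with e he
      exact hle.trans (est F g R W α β hg hR hR1 hW hW1 h1 h2 hα hβ hα0 hβ0.le _ e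
        (hδ0.trans_lt he.1) he.2 fun x hx y hy => (hdist x hx y hy).trans_lt he.1)
    have hcont : Tendsto (fun e : ℝ => ENNReal.ofReal
        (Fintype.card P * Fintype.card Q * (e / g) ^ s)) (𝓝[>] δ)
        (𝓝 (ENNReal.ofReal (Fintype.card P * Fintype.card Q * (δ / g) ^ s))) := by
      apply (ENNReal.continuous_ofReal.tendsto _).comp
      have : Continuous (fun e : ℝ => (Fintype.card P : ℝ) * Fintype.card Q * (e / g) ^ s) :=
        continuous_const.mul ((Real.continuous_rpow_const hs0.le).comp (continuous_id.div_const _))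
      exact (this.tendsto δ).mono_left nhdsWithin_le_nhds
    have h3 := ge_of_tendsto hcont hev
    refine h3.trans (le_of_eq ?_)
    have e1 : Metric.ediam T ^ s = ENNReal.ofReal (δ ^ s) := by
      rw [← ENNReal.ofReal_rpow_of_nonneg hδ0 hs0.le, hδ, ENNReal.ofReal_toReal hfin]
    rw [e1, ← ENNReal.ofReal_mul hC0.le, hC]
    congr 1
    rw [div_eq_mul_one_div δ g, Real.mul_rpow hδ0 (by positivity)]
    ring
  have hCne : ENNReal.ofReal C ≠ 0 := by
    rw [Ne, ENNReal.ofReal_eq_zero, not_le]; exact hC0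
  have hν : (ENNReal.ofReal C)⁻¹ • (μ.map F) ≤ Measure.hausdorffMeasure s := by
    apply Measure.le_hausdorffMeasure s _ (ENNReal.ofReal (g / 2)) (by
      rw [ENNReal.ofReal_pos]; positivity)
    intro T hT
    rw [Measure.smul_apply, smul_eq_mul]
    calc (ENNReal.ofReal C)⁻¹ * (μ.map F) T ≤
        (ENNReal.ofReal C)⁻¹ * (ENNReal.ofReal C * Metric.ediam T ^ s) := by gcongr; exact key T hT
      _ = Metric.ediam T ^ s := by
        rw [← mul_assoc, ENNReal.inv_mul_cancel hCne ENNReal.ofReal_ne_top, one_mul]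
  have hpos : Measure.hausdorffMeasure s (range F) ≠ 0 := by
    have h4 : (1 : ℝ≥0∞) ≤ (μ.map F) (range F) := by
      have h5 := Measure.le_map_apply (μ := μ) hF.aemeasurable (range F)
      rw [preimage_range] at h5
      have h6 : μ univ = 1 := by
        rw [hμ]; exact measure_univ
      rw [h6] at h5
      exact h5
    have h7 : (ENNReal.ofReal C)⁻¹ * 1 ≤ Measure.hausdorffMeasure s (range F) := by
      refine le_trans ?_ (hν (range F))
      rw [Measure.smul_apply, smul_eq_mul]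
      gcongr
    rw [mul_one] at h7
    intro h8
    rw [h8] at h7
    exact ENNReal.inv_ne_zero.2 ENNReal.ofReal_ne_top (le_bot_iff.1 h7)
  have h9 : (Real.toNNReal s : ℝ) = s := Real.coe_toNNReal s hs0.le
  have h10 := le_dimH_of_hausdorffMeasure_ne_zero (d := Real.toNNReal s) (s := range F)
    (by rw [h9]; exact hpos)
  exact h10

/-! ### points of the carpet -/

lemma summ (q : Fin 16 → ℝ) (hq : ∀ a, 0 < q a ∧ q a ≤ 1 / 16) (ω : ℕ → Fin 16) :
    Summable (fun k => (∏ m ∈ Finset.range k, q (ω m)) * (((ω k).val : ℝ) / 16)) := by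
  refine Summable.of_nonneg_of_le (fun k => ?_) (fun k => ?_)
    (summable_geometric_of_lt_one (by norm_num : (0 : ℝ) ≤ 1 / 16) (by norm_num))
  · exact mul_nonneg (Finset.prod_nonneg fun m _ => (hq _).1.le) (by positivity)
  · have h1 : ∏ m ∈ Finset.range k, q (ω m) ≤ (1 / 16 : ℝ) ^ k := by
      calc ∏ m ∈ Finset.range k, q (ω m) ≤ ∏ m ∈ Finset.range k, (1 / 16 : ℝ) :=
            Finset.prod_le_prod (fun m _ => (hq _).1.le) (fun m _ => (hq _).2)
        _ = (1 / 16 : ℝ) ^ k := by rw [Finset.prod_const, Finset.card_range]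
    have h2 : ((ω k).val : ℝ) / 16 ≤ 1 := by
      rw [div_le_one (by norm_num)]
      exact_mod_cast (ω k).isLt.le
    calc (∏ m ∈ Finset.range k, q (ω m)) * (((ω k).val : ℝ) / 16) ≤ (1 / 16 : ℝ) ^ k * 1 :=
          mul_le_mul h1 h2 (by positivity) (by positivity)
      _ = (1 / 16 : ℝ) ^ k := mul_one _

lemma measurable_pt {Z : Type*} [MeasurableSpace Z] (q : Fin 16 → ℝ)
    (hq : ∀ a, 0 < q a ∧ q a ≤ 1 / 16) (w : Z → ℕ → Fin 16)
    (hw : ∀ n, Measurable (fun z => w z n)) : Measurable (fun z => pt q (w z)) := by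
  refine measurable_of_tendsto_metrizable (f := fun n z => ∑ k ∈ Finset.range n,
    (∏ m ∈ Finset.range k, q (w z m)) * (((w z k).val : ℝ) / 16)) (fun n => ?_) ?_
  · refine Finset.measurable_sum _ fun k _ => ?_
    refine (Finset.measurable_prod _ fun m _ => ?_).mul ?_
    · exact (Measurable.of_discrete (f := q)).comp (hw m)
    · exact (Measurable.of_discrete (f := fun a : Fin 16 => ((a.val : ℝ) / 16))).comp (hw k)
  · rw [tendsto_pi_nhds]
    intro z
    exact (summ q hq (w z)).hasSum.tendsto_sum_nat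

lemma gapl (hgeo : S_GEO) (q : Fin 16 → ℝ) (g : ℝ) (hg : 0 < g)
    (hq : ∀ a, 0 < q a ∧ q a ≤ 1 / 16 - g) (ω ω' : ℕ → Fin 16) (n L : ℕ) (hne : ω n ≠ ω' n)
    (hL : n < L) : g * ∏ m ∈ Finset.range L, q (ω m) ≤ |pt q ω - pt q ω'| := by
  classical
  have hex : ∃ n, ω n ≠ ω' n := ⟨n, hne⟩
  set n0 := Nat.find hex with hn0
  have h1 : ω n0 ≠ ω' n0 := Nat.find_spec hex
  have h2 : ∀ m < n0, ω m = ω' m := fun m hm => by
    by_contra h
    exact Nat.find_min hex hm h
  have h3 : n0 ≤ n := Nat.find_min' hex hne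
  have h4 := (hgeo q g hg hq ω ω' n0 h2).2 h1
  refine le_trans ?_ h4
  have h5 : L = n0 + (L - n0) := by omega
  have h6 : ∏ m ∈ Finset.range L, q (ω m) ≤ ∏ m ∈ Finset.range n0, q (ω m) := by
    conv_lhs => rw [h5]
    rw [Finset.prod_range_add]
    have h7 : ∏ x ∈ Finset.range (L - n0), q (ω (n0 + x)) ≤ 1 :=
      Finset.prod_le_one (fun i _ => (hq _).1.le) (fun i _ => by
        have := (hq (ω (n0 + i))).2
        linarith)
    exact mul_le_of_le_one_right (Finset.prod_nonneg fun m _ => (hq _).1.le) h7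
  exact mul_le_mul_of_nonneg_left h6 hg.le

/-! ### blocks -/

/-- row patterns of the blocks -/
def PP (N u : ℕ) : Type := {s : Finset (Fin N) // s.card = u}

/-- column patterns of the blocks -/
def QQ (N : ℕ) : Type := Fin N → Fin 8

instance (N u : ℕ) : Fintype (PP N u) :=
  inferInstanceAs (Fintype {s : Finset (Fin N) // s.card = u})
instance (N : ℕ) : Fintype (QQ N) := inferInstanceAs (Fintype (Fin N → Fin 8))
instance (N : ℕ) : Nonempty (QQ N) := inferInstanceAs (Nonempty (Fin N → Fin 8))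
instance (N u : ℕ) : MeasurableSpace (PP N u) := ⊤
instance (N : ℕ) : MeasurableSpace (QQ N) := ⊤
instance (N u : ℕ) : DiscreteMeasurableSpace (PP N u) := ⟨fun _ => trivial⟩
instance (N : ℕ) : DiscreteMeasurableSpace (QQ N) := ⟨fun _ => trivial⟩

lemma card_PP (N u : ℕ) : Fintype.card (PP N u) = N.choose u := by
  have := Fintype.card_finset_len (α := Fin N) u
  rw [Fintype.card_fin] at this
  exact this

lemma card_QQ (N : ℕ) : Fintype.card (QQ N) = 8 ^ N := by
  have : Fintype.card (Fin N → Fin 8) = 8 ^ N := by simp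
  exact this

/-- symbol -/
def dg (x : Prop) [Decidable x] (v : Fin 8) : Fin 16 :=
  if x then ⟨v.val, by omega⟩ else ⟨v.val + 8, by omega⟩

lemma row_dg (x : Prop) [Decidable x] (v : Fin 8) : row (dg x v) = if x then 0 else 1 := by
  unfold row dg
  split_ifs with h1 h2 h2
  · rfl
  · exact absurd v.isLt h2
  · simp only at h2; omega
  · rfl

lemma qX_dg (ρ0 ρ1 : ℝ) (x : Prop) [Decidable x] (v : Fin 8) :
    qX ρ0 ρ1 (dg x v) = if x then ρ0 else ρ1 := by
  unfold qX dg
  split_ifs with h1 h2 h2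
  · rfl
  · exact absurd v.isLt h2
  · simp only at h2; omega
  · rfl

lemma dg_inj (x y : Prop) [Decidable x] [Decidable y] (v w : Fin 8) (h : dg x v = dg y w) :
    v = w := by
  unfold dg at h
  ext
  split_ifs at h <;> simp only [Fin.mk.injEq] at h <;> omega

/-- digits -/
def om (N u : ℕ) (hN : 0 < N) (z : (ℕ → PP N u) × (ℕ → QQ N)) (n : ℕ) : Fin 16 :=
  dg ((⟨n % N, Nat.mod_lt _ hN⟩ : Fin N) ∈ (z.1 (n / N)).1)
    (z.2 (n / N) ⟨n % N, Nat.mod_lt _ hN⟩)

lemma om_block (N u : ℕ) (hN : 0 < N) (z : (ℕ → PP N u) × (ℕ → QQ N)) (l : ℕ) (i : Fin N) :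
    om N u hN z (N * l + i.val) = dg (i ∈ (z.1 l).1) (z.2 l i) := by
  unfold om
  have h1 : (N * l + i.val) / N = l := by
    rw [Nat.mul_add_div hN, Nat.div_eq_of_lt i.isLt, add_zero]
  have h2 : (N * l + i.val) % N = i.val := by
    rw [Nat.mul_add_mod, Nat.mod_eq_of_lt i.isLt]
  have h3 : (⟨(N * l + i.val) % N, Nat.mod_lt _ hN⟩ : Fin N) = i := Fin.ext h2
  simp only [h1, h3]

lemma prod_om (ρ0 ρ1 : ℝ) (N u : ℕ) (hN : 0 < N) (z : (ℕ → PP N u) × (ℕ → QQ N)) (l : ℕ) :
    ∏ m ∈ Finset.range (N * l), qX ρ0 ρ1 (om N u hN z m) = (ρ0 ^ u * ρ1 ^ (N - u)) ^ l := by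
  induction l with
  | zero => simp
  | succ l ih =>
    rw [Nat.mul_succ, Finset.prod_range_add, ih, pow_succ, Finset.prod_range]
    congr 1
    have h1 : ∀ i : Fin N, qX ρ0 ρ1 (om N u hN z (N * l + i.val)) =
        if i ∈ (z.1 l).1 then ρ0 else ρ1 := by
      intro i
      rw [om_block, qX_dg]
    rw [Finset.prod_congr rfl fun i _ => h1 i, Finset.prod_ite, Finset.prod_const,
      Finset.prod_const]
    have h2 : (Finset.univ.filter fun i : Fin N => i ∈ (z.1 l).1) = (z.1 l).1 := by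
      ext i; simp
    have h3 : (Finset.univ.filter fun i : Fin N => i ∉ (z.1 l).1) = (z.1 l).1ᶜ := by
      ext i; simp
    rw [h2, h3, Finset.card_compl, Fintype.card_fin, (z.1 l).2]

lemma measurable_om (N u : ℕ) (hN : 0 < N) (n : ℕ) :
    Measurable (fun z : (ℕ → PP N u) × (ℕ → QQ N) => om N u hN z n) := by
  have h1 : Measurable (fun z : (ℕ → PP N u) × (ℕ → QQ N) => (z.1 (n / N), z.2 (n / N))) :=
    ((measurable_pi_apply _).comp measurable_fst).prodMk
      ((measurable_pi_apply _).comp measurable_snd)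
  exact (Measurable.of_discrete (f := fun y : PP N u × QQ N =>
    dg ((⟨n % N, Nat.mod_lt _ hN⟩ : Fin N) ∈ y.1.1) (y.2 ⟨n % N, Nat.mod_lt _ hN⟩))).comp h1

theorem main (hgeo : S_GEO) : S_BLK := by
  intro ρ0 ρ1 r N u h0 h1 h0r h1r hr hN hu
  have hNp : 0 < N := hN
  have hNr : (0 : ℝ) < N := by exact_mod_cast hNp
  have hr0 : 0 < r := h0.trans_le h0r
  set g : ℝ := 1 / 16 - r with hgdef
  have hg : 0 < g := by rw [hgdef]; linarith
  have hq : ∀ a, 0 < qX ρ0 ρ1 a ∧ qX ρ0 ρ1 a ≤ 1 / 16 - g := by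
    intro a
    unfold qX
    split_ifs
    · exact ⟨h0, by rw [hgdef]; linarith⟩
    · exact ⟨h1, by rw [hgdef]; linarith⟩
  have hq' : ∀ a : Fin 16, 0 < (fun _ => r : Fin 16 → ℝ) a ∧
      (fun _ => r : Fin 16 → ℝ) a ≤ 1 / 16 - g :=
    fun a => ⟨hr0, by rw [hgdef]; simp⟩
  have : Nonempty (PP N u) := by
    rw [← Fintype.card_pos_iff, card_PP]
    exact Nat.choose_pos hu
  set F : (ℕ → PP N u) × (ℕ → QQ N) → ℝ × ℝ := fun z =>
    (pt (qX ρ0 ρ1) (om N u hNp z), pt (fun _ => r) (fun k => row (om N u hNp z k))) with hFdef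
  have hF : Measurable F := by
    refine Measurable.prodMk (measurable_pt _ (fun a => ⟨(hq a).1, by linarith [(hq a).2]⟩) _
      (measurable_om N u hNp)) (measurable_pt _ (fun a => ⟨hr0, by linarith⟩) _ fun n => ?_)
    exact (Measurable.of_discrete (f := row)).comp (measurable_om N u hNp n)
  have hlr : 0 < -Real.log r := by
    have := Real.log_neg hr0 (by linarith)
    linarith
  have hl0 : 0 < -Real.log ρ0 := by
    have := Real.log_neg h0 (by linarith)
    linarith
  have hl1 : 0 < -Real.log ρ1 := by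
    have := Real.log_neg h1 (by linarith)
    linarith
  set R : ℝ := r ^ N with hR
  set W : ℝ := ρ0 ^ u * ρ1 ^ (N - u) with hW
  have hR0 : 0 < R := pow_pos hr0 _
  have hR1 : R < 1 := pow_lt_one₀ hr0.le (by linarith) hNp.ne'
  have hW0 : 0 < W := mul_pos (pow_pos h0 _) (pow_pos h1 _)
  set m : ℝ := (N.choose u : ℝ) with hm
  have hm1 : 1 ≤ m := by rw [hm]; exact_mod_cast Nat.choose_pos hu
  set κ : ℝ := (u : ℝ) / N * (-Real.log ρ0) + (1 - (u : ℝ) / N) * (-Real.log ρ1) with hκ
  have huN : (u : ℝ) ≤ N := by exact_mod_cast hu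
  have hNκ : N * κ = -(u * Real.log ρ0 + ((N : ℝ) - u) * Real.log ρ1) := by
    rw [hκ]; field_simp; ring
  have hlogW : Real.log W = -(N * κ) := by
    rw [hNκ, hW, Real.log_mul (pow_pos h0 _).ne' (pow_pos h1 _).ne', Real.log_pow, Real.log_pow,
      Nat.cast_sub hu]
    ring
  have hκ0 : 0 < κ := by
    have h3 : 0 < N * κ := by
      rw [hNκ]
      have e1 : 0 ≤ (u : ℝ) * (-Real.log ρ0) := mul_nonneg (Nat.cast_nonneg _) hl0.le
      have e2 : 0 ≤ ((N : ℝ) - u) * (-Real.log ρ1) := mul_nonneg (by linarith) hl1.le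
      rcases Nat.eq_zero_or_pos u with hu0 | hu0
      · subst hu0
        have e3 : 0 < (N : ℝ) * (-Real.log ρ1) := mul_pos hNr hl1
        push_cast
        nlinarith
      · have e3 : 0 < (u : ℝ) * (-Real.log ρ0) := mul_pos (by exact_mod_cast hu0) hl0
        nlinarith
    exact (mul_pos_iff_of_pos_left hNr).1 h3
  have hW1 : W < 1 := by
    rw [← Real.log_neg_iff hW0, hlogW]
    have := mul_pos hNr hκ0
    linarith
  have hlog8 : 0 < Real.log 8 := Real.log_pos (by norm_num)
  have hrange : range F ⊆ KK ρ0 ρ1 r := by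
    rintro _ ⟨z, rfl⟩
    exact ⟨om N u hNp z, rfl⟩
  refine le_trans ?_ (dimH_mono hrange)
  refine mass F hF g R W _ _ hg hR0 hR1 hW0 hW1 ?_ ?_ ?_ ?_ ?_ ?_
  · rintro k z z' ⟨j, hj, hne⟩
    have h3 : ∃ i : Fin N, ¬ (i ∈ (z.1 j).1 ↔ i ∈ (z'.1 j).1) := by
      by_contra hcon
      push Not at hcon
      exact hne (Subtype.ext (Finset.ext fun i => hcon i))
    obtain ⟨i, hi⟩ := h3
    have h4 : row (om N u hNp z (N * j + i.val)) ≠ row (om N u hNp z' (N * j + i.val)) := by
      rw [om_block, om_block, row_dg, row_dg]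
      by_cases ha : i ∈ (z.1 j).1 <;> by_cases hb : i ∈ (z'.1 j).1
      · exact absurd (iff_of_true ha hb) hi
      · rw [if_pos ha, if_neg hb]; decide
      · rw [if_neg ha, if_pos hb]; decide
      · exact absurd (iff_of_false ha hb) hi
    have h5 : N * j + i.val < N * k := by
      have : N * j + N ≤ N * k := by
        rw [← Nat.mul_succ]; exact Nat.mul_le_mul_left _ hj
      have := i.isLt
      omega
    have h6 := gapl hgeo (fun _ => r) g hg hq' (fun n => row (om N u hNp z n))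
      (fun n => row (om N u hNp z' n)) _ _ h4 h5
    rw [Finset.prod_const, Finset.card_range, pow_mul] at h6
    refine h6.trans ?_
    rw [hFdef, Prod.dist_eq, Real.dist_eq, Real.dist_eq]
    exact le_max_right _ _
  · rintro k z z' ⟨j, hj, hne⟩
    have h3 : ∃ i : Fin N, z.2 j i ≠ z'.2 j i := by
      by_contra hcon
      push Not at hcon
      exact hne (funext hcon)
    obtain ⟨i, hi⟩ := h3
    have h4 : om N u hNp z (N * j + i.val) ≠ om N u hNp z' (N * j + i.val) := by
      rw [om_block, om_block]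
      intro h
      exact hi (dg_inj _ _ _ _ h)
    have h5 : N * j + i.val < N * k := by
      have : N * j + N ≤ N * k := by
        rw [← Nat.mul_succ]; exact Nat.mul_le_mul_left _ hj
      have := i.isLt
      omega
    have h6 := gapl hgeo (qX ρ0 ρ1) g hg hq (om N u hNp z) (om N u hNp z') _ _ h4 h5
    rw [prod_om] at h6
    refine h6.trans ?_
    rw [hFdef, Prod.dist_eq, Real.dist_eq, Real.dist_eq]
    exact le_max_left _ _
  · rw [card_PP, Real.rpow_def_of_pos hR0, hR, Real.log_pow]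
    have e1 : (N : ℝ) * Real.log r * (Real.log m / (N * -Real.log r)) = -Real.log m := by
      have : Real.log r ≠ 0 := by linarith
      field_simp
    rw [e1, Real.exp_neg, Real.exp_log (by linarith), inv_mul_cancel₀ (by linarith)]
  · rw [card_QQ, Real.rpow_def_of_pos hW0, hlogW]
    have e1 : -((N : ℝ) * κ) * (Real.log 8 / κ) = -(N * Real.log 8) := by
      field_simp
    rw [e1, Real.exp_neg, ← Real.log_pow, Real.exp_log (by positivity)]
    push_cast
    exact inv_mul_cancel₀ (by positivity)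
  · exact div_nonneg (Real.log_nonneg hm1) (by positivity)
  · exact div_pos hlog8 hκ0

end Pool.Agent.R660.BS.BLK
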