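import Pool.Agent.R660.BS.Defs

/-! Project BS (helper660), piece CHOOSE by helper506: entropy bounds of binomial coefficients. -/

set_option autoImplicit false

open Set Filter Topology

namespace Pool.Agent.R660.BS.CHOOSE

/-- the binomial probabilities -/
noncomputable def t (N : ℕ) (p : ℝ) (v : ℕ) : ℝ := (N.choose v : ℝ) * (p ^ v * (1 - p) ^ (N - v))

lemma t_sum (N : ℕ) (p : ℝ) : ∑ v ∈ Finset.range (N + 1), t N p v = 1 := by
  have h := add_pow p (1 - p) N
  rw [add_sub_cancel, one_pow] at h
  rw [h]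
  refine Finset.sum_congr rfl fun v _ => ?_
  rw [t]
  ring

lemma t_nonneg {N : ℕ} {p : ℝ} (h0 : 0 ≤ p) (h1 : p ≤ 1) (v : ℕ) : 0 ≤ t N p v := by
  have : 0 ≤ 1 - p := by linarith
  unfold t
  positivity

lemma t_succ {N v : ℕ} (p : ℝ) (hv : v + 1 ≤ N) :
    t N p (v + 1) * ((v + 1) * (1 - p)) = t N p v * (((N : ℝ) - v) * p) := by
  have h1 : (N.choose (v + 1) : ℝ) * (v + 1) = (N.choose v : ℝ) * ((N : ℝ) - v) := by
    have h2 := Nat.choose_succ_right_eq N v
    have h3 : ((N - v : ℕ) : ℝ) = (N : ℝ) - v := Nat.cast_sub (by omega)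
    rw [← h3]
    exact_mod_cast h2
  have h4 : N - v = N - (v + 1) + 1 := by omega
  unfold t
  rw [h4, pow_succ, pow_succ]
  calc (N.choose (v + 1) : ℝ) * (p ^ v * p * (1 - p) ^ (N - (v + 1))) * ((v + 1) * (1 - p))
      = ((N.choose (v + 1) : ℝ) * (v + 1)) * (p ^ v * p * (1 - p) ^ (N - (v + 1)) * (1 - p)) := by ring
    _ = _ := by rw [h1]; ring

lemma t_le {N u : ℕ} (hN : 1 ≤ N) (hu0 : 0 < u) (huN : u < N) (v : ℕ) (hv : v ≤ N) :
    t N ((u : ℝ) / N) v ≤ t N ((u : ℝ) / N) u := by
  have hN0 : (0 : ℝ) < N := by exact_mod_cast hN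
  have hp0 : (0 : ℝ) < (u : ℝ) / N := by
    have : (0 : ℝ) < u := by exact_mod_cast hu0
    positivity
  have hp1 : (u : ℝ) / N < 1 := by
    rw [div_lt_one hN0]
    exact_mod_cast huN
  set p : ℝ := (u : ℝ) / N with hp
  have hpN : p * N = u := by rw [hp]; field_simp
  have hq : 0 < 1 - p := by linarith
  have hqN : (1 - p) * N = N - u := by rw [sub_mul, hpN, one_mul]
  have up : ∀ w : ℕ, w + 1 ≤ u → t N p w ≤ t N p (w + 1) := by
    intro w hw
    have h1 := t_succ (N := N) (v := w) p (by omega)
    have hwR : (w : ℝ) + 1 ≤ u := by exact_mod_cast hw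
    have huR : (u : ℝ) ≤ N := by exact_mod_cast huN.le
    have h2 : ((w : ℝ) + 1) * (1 - p) ≤ ((N : ℝ) - w) * p := by
      have h3 : (((w : ℝ) + 1) * (1 - p)) * N ≤ (((N : ℝ) - w) * p) * N := by
        rw [mul_assoc, mul_assoc, hqN, hpN]
        nlinarith
      exact le_of_mul_le_mul_right h3 hN0
    have h4 : 0 < ((w : ℝ) + 1) * (1 - p) := by positivity
    have h5 := mul_le_mul_of_nonneg_left h2 (t_nonneg (N := N) hp0.le hp1.le w)
    rw [← h1] at h5
    exact le_of_mul_le_mul_right h5 h4
  have down : ∀ w : ℕ, u ≤ w → w + 1 ≤ N → t N p (w + 1) ≤ t N p w := by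
    intro w hw hwN
    have h1 := t_succ (N := N) (v := w) p hwN
    have hwR : (u : ℝ) ≤ w := by exact_mod_cast hw
    have huR : (u : ℝ) ≤ N := by exact_mod_cast huN.le
    have h2 : ((N : ℝ) - w) * p ≤ ((w : ℝ) + 1) * (1 - p) := by
      have h3 : (((N : ℝ) - w) * p) * N ≤ (((w : ℝ) + 1) * (1 - p)) * N := by
        rw [mul_assoc, mul_assoc, hqN, hpN]
        nlinarith
      exact le_of_mul_le_mul_right h3 hN0
    have h4 : 0 < ((w : ℝ) + 1) * (1 - p) := by positivity
    have h5 := mul_le_mul_of_nonneg_left h2 (t_nonneg (N := N) hp0.le hp1.le w)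
    rw [← h1] at h5
    exact le_of_mul_le_mul_right h5 h4
  rcases le_total v u with h | h
  · obtain ⟨k, hk⟩ := Nat.exists_eq_add_of_le h
    have : ∀ k w : ℕ, w + k ≤ u → t N p w ≤ t N p (w + k) := by
      intro k
      induction k with
      | zero => intro w _; exact le_rfl
      | succ k ih =>
        intro w hw
        exact (ih w (by omega)).trans (up (w + k) (by omega))
    have h6 := this k v hk.ge
    rwa [← hk] at h6
  · obtain ⟨k, rfl⟩ := Nat.exists_eq_add_of_le h
    have : ∀ k : ℕ, u + k ≤ N → t N p (u + k) ≤ t N p u := by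
      intro k
      induction k with
      | zero => intro _; exact le_rfl
      | succ k ih =>
        intro hw
        exact (down (u + k) (by omega) (by omega)).trans (ih (by omega))
    exact this k hv

theorem main : S_CHOOSE := by
  intro N u hN hu
  have hN0 : (0 : ℝ) < N := by exact_mod_cast hN
  have hlog : 0 ≤ Real.log ((N : ℝ) + 1) := Real.log_nonneg (by linarith)
  rcases Nat.eq_zero_or_pos u with rfl | hu0
  · simp [hlog]
  rcases eq_or_lt_of_le hu with rfl | huN
  · have : (u : ℝ) / u = 1 := div_self hN0.ne'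
    rw [this]
    simp [hlog]
  set p : ℝ := (u : ℝ) / N with hp
  have hu0R : (0 : ℝ) < u := by exact_mod_cast hu0
  have hp0 : (0 : ℝ) < p := by positivity
  have hp1 : p < 1 := by
    rw [hp, div_lt_one hN0]
    exact_mod_cast huN
  have hq : 0 < 1 - p := by linarith
  have hpN : N * p = u := by rw [hp]; field_simp
  have hsub : ((N - u : ℕ) : ℝ) = (N : ℝ) - u := Nat.cast_sub hu
  have hc : (0 : ℝ) < N.choose u := by exact_mod_cast Nat.choose_pos hu
  have hlt : Real.log (t N p u) = Real.log (N.choose u) - N * Real.binEntropy p := by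
    unfold t
    rw [Real.log_mul hc.ne' (by positivity), Real.log_mul (by positivity) (by positivity), Real.log_pow,
      Real.log_pow, hsub, Real.binEntropy, Real.log_inv, Real.log_inv]
    have h1 : (u : ℝ) = N * p := hpN.symm
    rw [h1]
    ring
  have htpos : 0 < t N p u := by
    unfold t
    positivity
  constructor
  · have h1 : t N p u ≤ 1 := by
      refine le_trans ?_ (t_sum N p).le
      exact Finset.single_le_sum (f := fun v => t N p v) (fun v _ => t_nonneg hp0.le hp1.le v)
        (Finset.mem_range.mpr (by omega))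
    have h2 : Real.log (t N p u) ≤ 0 := Real.log_nonpos htpos.le h1
    rw [hlt] at h2
    linarith
  · have h1 : (1 : ℝ) ≤ ((N : ℝ) + 1) * t N p u := by
      calc (1 : ℝ) = ∑ v ∈ Finset.range (N + 1), t N p v := (t_sum N p).symm
        _ ≤ ∑ v ∈ Finset.range (N + 1), t N p u :=
            Finset.sum_le_sum fun v hv => t_le hN hu0 huN v (by
              have := Finset.mem_range.mp hv
              omega)
        _ = ((N : ℝ) + 1) * t N p u := by
            rw [Finset.sum_const, Finset.card_range, nsmul_eq_mul]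
            push_cast
            ring
    have h2 := Real.log_nonneg h1
    rw [Real.log_mul (by positivity) htpos.ne', hlt] at h2
    linarith

end Pool.Agent.R660.BS.CHOOSE
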