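import Pool.Agent.R660.BS.Defs

/-! Final assembly of project BS. -/

open Set Filter Topology MeasureTheory
open scoped ENNReal

namespace Pool.Agent.R660.BS.Fin

open Pool.Agent.R660.BS

theorem piecewise_of_analytic {V : Type} [NormedAddCommGroup V] [NormedSpace ℝ V] {F : V → ℝ}
    {S : Set V} (h : RealAnalyticOn F S) : PiecewiseAnalyticOn F S := by
  refine ⟨{S}, by simp, ?_, ?_⟩
  · intro P hP
    rw [mem_singleton_iff] at hP
    subst hP
    refine ⟨⟨univ, isClosed_univ, by simp⟩, ?_, h⟩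
    have : relInterior P P = P := by
      ext x
      constructor
      · exact fun hx => hx.1
      · exact fun hx => ⟨hx, univ, isOpen_univ, mem_univ _, by simp⟩
    rw [this]
    exact (inter_eq_left.2 subset_closure).symm
  · intro x _
    refine ⟨univ, isOpen_univ, mem_univ _, ?_⟩
    apply (finite_singleton S).subset
    rintro P ⟨hP, _⟩
    exact hP

/-- the curve of parameters -/
noncomputable def gam (κ0 κ1 : ℝ) (t : ℝ) : Param 2 (fun _ => Fin 16) :=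
  par (Real.exp (-κ0)) (Real.exp (-κ1)) (Real.exp (-(1 / (1 / 3 + t))))

theorem gam_analytic (κ0 κ1 : ℝ) : AnalyticAt ℝ (gam κ0 κ1) 0 := by
  have hr : AnalyticAt ℝ (fun t : ℝ => Real.exp (-(1 / (1 / 3 + t)))) 0 := by
    apply AnalyticAt.rexp
    apply AnalyticAt.neg
    apply AnalyticAt.div analyticAt_const (analyticAt_const.add analyticAt_id)
    norm_num
  rw [show gam κ0 κ1 = fun t => (fun i a => gam κ0 κ1 t i a) from rfl]
  apply AnalyticAt.pi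
  intro i
  apply AnalyticAt.pi
  intro a
  unfold gam par
  apply AnalyticAt.prod
  · by_cases hi : i = 0
    · simp only [hi, if_true]; exact analyticAt_const
    · simp only [hi, if_false]; exact hr
  · exact analyticAt_const

theorem main (hLIM : S_LIM) (hUP : S_UP) (hLOW : S_LOW) (hANA : S_ANA) (hNP : S_NP) :
    ¬ RealAnalyticOn (HD EE) (Baranski 2 (fun _ => Fin 16)) ∧
    ¬ PiecewiseAnalyticOn (HD EE) (Baranski 2 (fun _ => Fin 16)) ∧
    ¬ RealAnalyticOn (HD EE) (StronglyBaranski 2 (fun _ => Fin 16)) ∧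
    ¬ PiecewiseAnalyticOn (HD EE) (StronglyBaranski 2 (fun _ => Fin 16)) := by
  obtain ⟨κ0, κ1, D0, b, C, ε, h3, h10, hC, hε, hlow, hup⟩ := hANA
  obtain ⟨δ1, hδ1, hup1⟩ := hup 1 one_pos
  set e : ℝ := min (min ε δ1) (1 / 100) with he
  have he0 : 0 < e := by positivity
  have heε : e ≤ ε := (min_le_left _ _).trans (min_le_left _ _)
  have heδ : e ≤ δ1 := (min_le_left _ _).trans (min_le_right _ _)
  have he1 : e ≤ 1 / 100 := min_le_right _ _
  -- facts about the parameters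
  have hpar : ∀ t ∈ Icc (0 : ℝ) (1 / 100),
      (Real.exp (-κ0) ≤ Real.exp (-(1 / (1 / 3 + t)))) ∧
      (Real.exp (-κ1) ≤ Real.exp (-(1 / (1 / 3 + t)))) ∧
      (Real.exp (-(1 / (1 / 3 + t))) < 1 / 16) := by
    intro t ht
    have h0 : (0 : ℝ) < 1 / 3 + t := by linarith [ht.1]
    have h1 : 1 / (1 / 3 + t) ≤ 3 := by
      rw [div_le_iff₀ h0]; linarith [ht.1]
    refine ⟨Real.exp_le_exp.2 (by linarith), Real.exp_le_exp.2 (by linarith), ?_⟩
    have h2 : (2.9 : ℝ) < 1 / (1 / 3 + t) := by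
      rw [lt_div_iff₀ h0]; linarith [ht.2]
    have hl : Real.log 16 < 2.9 := by
      have : (16 : ℝ) = 2 ^ 4 := by norm_num
      rw [this, Real.log_pow]
      have := Real.log_two_lt_d9
      push_cast
      linarith
    calc Real.exp (-(1 / (1 / 3 + t))) < Real.exp (-Real.log 16) := Real.exp_lt_exp.2 (by linarith)
      _ = 1 / 16 := by rw [Real.exp_neg, Real.exp_log (by norm_num)]; norm_num
  have hDD : ∀ t ∈ Icc (0 : ℝ) (1 / 100), ∀ θ, DD (-Real.log (Real.exp (-(1 / (1 / 3 + t)))))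
      (-Real.log (Real.exp (-κ0))) (-Real.log (Real.exp (-κ1))) θ = FF κ0 κ1 (1 / 3 + t) θ := by
    intro t ht θ
    have h0 : (0 : ℝ) < 1 / 3 + t := by linarith [ht.1]
    rw [DD, FF]
    simp only [Real.log_exp, neg_neg]
    rw [div_div_eq_mul_div, div_one, mul_comm]
  have hHD : ∀ t ∈ Icc (0 : ℝ) (1 / 100), HD EE (gam κ0 κ1 t)
      = (dimH (KK (Real.exp (-κ0)) (Real.exp (-κ1)) (Real.exp (-(1 / (1 / 3 + t)))))).toReal := by
    intro t ht
    obtain ⟨h1, h2, h4⟩ := hpar t ht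
    rw [HD, gam, (hLIM _ _ _ (Real.exp_pos _) (Real.exp_pos _) (Real.exp_pos _)
      (h1.trans_lt h4) (h2.trans_lt h4) h4).1]
  have hmemS : ∀ t ∈ Icc (0 : ℝ) (1 / 100), gam κ0 κ1 t ∈ StronglyBaranski 2 (fun _ => Fin 16) ∧
      gam κ0 κ1 t ∈ Baranski 2 (fun _ => Fin 16) := by
    intro t ht
    obtain ⟨h1, h2, h4⟩ := hpar t ht
    exact (hLIM _ _ _ (Real.exp_pos _) (Real.exp_pos _) (Real.exp_pos _)
      (h1.trans_lt h4) (h2.trans_lt h4) h4).2
  -- upper bound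
  have hUB : ∀ t ∈ Icc (0 : ℝ) (1 / 100), ∀ s, (∀ θ ∈ Icc (0 : ℝ) 1, FF κ0 κ1 (1 / 3 + t) θ ≤ s) →
      dimH (KK (Real.exp (-κ0)) (Real.exp (-κ1)) (Real.exp (-(1 / (1 / 3 + t)))))
        ≤ ENNReal.ofReal s := by
    intro t ht s hs
    obtain ⟨h1, h2, h4⟩ := hpar t ht
    apply hUP _ _ _ s (Real.exp_pos _) (Real.exp_pos _) h1 h2 h4
    intro θ hθ
    rw [hDD t ht]
    exact hs θ hθ
  have hFFnn : ∀ t ∈ Icc (0 : ℝ) (1 / 100), ∀ s, (∀ θ ∈ Icc (0 : ℝ) 1, FF κ0 κ1 (1 / 3 + t) θ ≤ s) →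
      0 ≤ s := by
    intro t ht s hs
    refine le_trans ?_ (hs 0 (by simp))
    rw [FF]
    have : 0 < κ1 := by linarith
    have := Real.log_nonneg (show (1 : ℝ) ≤ 8 by norm_num)
    simp
    positivity
  have hU : ∀ η : ℝ, 0 < η → ∃ δ : ℝ, 0 < δ ∧ ∀ t ∈ Icc (0 : ℝ) δ,
      HD EE (gam κ0 κ1 t) ≤ D0 + b * t + η * t := by
    intro η hη
    obtain ⟨δ, hδ, h⟩ := hup η hη
    refine ⟨min δ (1 / 100), by positivity, ?_⟩
    intro t ht
    have ht1 : t ∈ Icc (0 : ℝ) (1 / 100) := ⟨ht.1, ht.2.trans (min_le_right _ _)⟩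
    have ht2 : t ∈ Icc (0 : ℝ) δ := ⟨ht.1, ht.2.trans (min_le_left _ _)⟩
    rw [hHD t ht1]
    exact ENNReal.toReal_le_of_le_ofReal (hFFnn t ht1 _ (h t ht2)) (hUB t ht1 _ (h t ht2))
  have hL : ∀ t ∈ Icc (0 : ℝ) e, D0 + b * t + C * t ^ ((4 : ℝ) / 3) ≤ HD EE (gam κ0 κ1 t) := by
    intro t ht
    have ht1 : t ∈ Icc (0 : ℝ) (1 / 100) := ⟨ht.1, ht.2.trans he1⟩
    have ht2 : t ∈ Icc (0 : ℝ) δ1 := ⟨ht.1, ht.2.trans heδ⟩
    obtain ⟨θ, hθ, hle⟩ := hlow t ⟨ht.1, ht.2.trans heε⟩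
    refine hle.trans ?_
    obtain ⟨h1, h2, h4⟩ := hpar t ht1
    have h5 := hLOW (Real.exp (-κ0)) (Real.exp (-κ1)) (Real.exp (-(1 / (1 / 3 + t)))) θ
      (Real.exp_pos _) (Real.exp_pos _) h1 h2 h4 hθ
    rw [hDD t ht1] at h5
    rw [hHD t ht1]
    have hfin := hUB t ht1 _ (hup1 t ht2)
    exact (ENNReal.ofReal_le_iff_le_toReal (hfin.trans_lt ENNReal.ofReal_lt_top).ne).1 h5
  have hB := hNP _ (HD EE) (Baranski 2 (fun _ => Fin 16)) (gam κ0 κ1) D0 b C e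
    (gam_analytic κ0 κ1) hC he0 (fun t ht => (hmemS t ⟨ht.1, ht.2.trans he1⟩).2) hL hU
  have hS := hNP _ (HD EE) (StronglyBaranski 2 (fun _ => Fin 16)) (gam κ0 κ1) D0 b C e
    (gam_analytic κ0 κ1) hC he0 (fun t ht => (hmemS t ⟨ht.1, ht.2.trans he1⟩).1) hL hU
  exact ⟨fun h => hB (piecewise_of_analytic h), hB, fun h => hS (piecewise_of_analytic h), hS⟩

end Pool.Agent.R660.BS.Fin
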