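import Pool.Agent.R660.BS.Defs

/-! Project BS, piece GEO: elementary geometry of digit expansions. -/

namespace Pool.Agent.R660.BS.GEO

open Filter Finset

variable {q : Fin 16 → ℝ} {g : ℝ}

lemma prod_nonneg' (hq : ∀ a, 0 < q a ∧ q a ≤ 1 / 16 - g) (ω : ℕ → Fin 16) (k : ℕ) :
    0 ≤ ∏ m ∈ range k, q (ω m) := Finset.prod_nonneg fun m _ => (hq _).1.le

lemma digit_le (a : Fin 16) : (a.val : ℝ) / 16 ≤ 15 / 16 := by
  have : (a.val : ℝ) ≤ 15 := by exact_mod_cast (by omega : a.val ≤ 15)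
  linarith

lemma term_le (hg : 0 < g) (hq : ∀ a, 0 < q a ∧ q a ≤ 1 / 16 - g) (ω : ℕ → Fin 16) (k : ℕ) :
    (∏ m ∈ range k, q (ω m)) * (((ω k).val : ℝ) / 16) ≤ (1 / 16 : ℝ) ^ k * (15 / 16) := by
  have h1 : ∏ m ∈ range k, q (ω m) ≤ (1 / 16 : ℝ) ^ k := by
    have := Finset.prod_le_prod (s := range k) (f := fun m => q (ω m)) (g := fun _ => (1 / 16 : ℝ))
      (fun m _ => (hq _).1.le) (fun m _ => by linarith [(hq (ω m)).2])
    simpa using this
  exact mul_le_mul h1 (digit_le _) (by positivity) (by positivity)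

lemma term_nonneg (hq : ∀ a, 0 < q a ∧ q a ≤ 1 / 16 - g) (ω : ℕ → Fin 16) (k : ℕ) :
    0 ≤ (∏ m ∈ range k, q (ω m)) * (((ω k).val : ℝ) / 16) :=
  mul_nonneg (prod_nonneg' hq ω k) (by positivity)

lemma summ_geo : Summable fun k : ℕ => (1 / 16 : ℝ) ^ k * (15 / 16) :=
  (summable_geometric_of_lt_one (by norm_num) (by norm_num)).mul_right _

lemma summ (hg : 0 < g) (hq : ∀ a, 0 < q a ∧ q a ≤ 1 / 16 - g) (ω : ℕ → Fin 16) :
    Summable fun k => (∏ m ∈ range k, q (ω m)) * (((ω k).val : ℝ) / 16) :=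
  Summable.of_nonneg_of_le (term_nonneg hq ω) (term_le hg hq ω) summ_geo

lemma pt_nonneg (hq : ∀ a, 0 < q a ∧ q a ≤ 1 / 16 - g) (ω : ℕ → Fin 16) : 0 ≤ pt q ω :=
  tsum_nonneg (term_nonneg hq ω)

lemma pt_le_one (hg : 0 < g) (hq : ∀ a, 0 < q a ∧ q a ≤ 1 / 16 - g) (ω : ℕ → Fin 16) :
    pt q ω ≤ 1 := by
  unfold pt
  refine ((summ hg hq ω).tsum_le_tsum (term_le hg hq ω) summ_geo).trans ?_
  rw [tsum_mul_right, tsum_geometric_of_lt_one (by norm_num) (by norm_num)]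
  norm_num

lemma pt_succ (hg : 0 < g) (hq : ∀ a, 0 < q a ∧ q a ≤ 1 / 16 - g) (ω : ℕ → Fin 16) :
    pt q ω = ((ω 0).val : ℝ) / 16 + q (ω 0) * pt q (fun k => ω (k + 1)) := by
  unfold pt
  rw [(summ hg hq ω).tsum_eq_zero_add, ← tsum_mul_left]
  simp only [range_zero, prod_empty, one_mul]
  congr 1
  refine tsum_congr fun k => ?_
  rw [Finset.prod_range_succ']
  ring

lemma gap (hg : 0 < g) (hq : ∀ a, 0 < q a ∧ q a ≤ 1 / 16 - g) (ω ω' : ℕ → Fin 16)
    (h : (ω 0).val < (ω' 0).val) : g ≤ pt q ω' - pt q ω := by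
  rw [pt_succ hg hq ω, pt_succ hg hq ω']
  have h1 := pt_le_one hg hq (fun k => ω (k + 1))
  have h2 := pt_nonneg hq (fun k => ω' (k + 1))
  have h3 := pt_nonneg hq (fun k => ω (k + 1))
  have h4 : 0 ≤ q (ω' 0) * pt q (fun k => ω' (k + 1)) := mul_nonneg (hq _).1.le h2
  have h5 : q (ω 0) * pt q (fun k => ω (k + 1)) ≤ q (ω 0) :=
    mul_le_of_le_one_right (hq _).1.le h1
  have h6 := (hq (ω 0)).2
  have h7 : ((ω 0).val : ℝ) + 1 ≤ ((ω' 0).val : ℝ) := by exact_mod_cast h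
  linarith

theorem main : S_GEO := by
  intro q g hg hq ω ω' l
  induction l generalizing ω ω' with
  | zero =>
    intro _
    simp only [range_zero, prod_empty, mul_one]
    refine ⟨?_, fun hne => ?_⟩
    · rw [abs_le]
      have h1 := pt_le_one hg hq ω
      have h2 := pt_nonneg hq ω
      have h3 := pt_le_one hg hq ω'
      have h4 := pt_nonneg hq ω'
      constructor <;> linarith
    · have hne' : (ω 0).val ≠ (ω' 0).val := fun h => hne (Fin.ext h)
      rcases lt_or_gt_of_ne hne' with h | h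
      · have := gap hg hq ω ω' h
        rw [abs_sub_comm]
        exact this.trans (le_abs_self _)
      · exact (gap hg hq ω' ω h).trans (le_abs_self _)
  | succ l ih =>
    intro hag
    have h0 : ω 0 = ω' 0 := hag 0 (Nat.succ_pos l)
    obtain ⟨h1, h2⟩ := ih (fun k => ω (k + 1)) (fun k => ω' (k + 1))
      (fun m hm => hag (m + 1) (Nat.succ_lt_succ hm))
    have h3 : |pt q ω - pt q ω'| = q (ω 0) *
        |pt q (fun k => ω (k + 1)) - pt q (fun k => ω' (k + 1))| := by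
      rw [pt_succ hg hq ω, pt_succ hg hq ω', ← h0, ← abs_of_pos (hq (ω 0)).1, ← abs_mul,
        abs_of_pos (hq (ω 0)).1]
      congr 1
      ring
    rw [h3, Finset.prod_range_succ']
    refine ⟨?_, fun hne => ?_⟩
    · rw [mul_comm]
      exact mul_le_mul_of_nonneg_right h1 (hq _).1.le
    · have h4 := mul_le_mul_of_nonneg_left (h2 hne) (hq (ω 0)).1.le
      linarith

end Pool.Agent.R660.BS.GEO
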