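import Pool.Agent.R660.BS.Defs

/-! Project BS, piece GOODK: combinatorial lemma on sequences. -/

namespace Pool.Agent.R660.BS.GOODK

open Filter

theorem main : S_GOODK := by
  intro l h B hlk hl1 hlim hB ε k0 hε
  by_contra hcon
  push Not at hcon
  have hsurj : ∀ v, l k0 ≤ v → ∃ k, k0 ≤ k ∧ l k = v := by
    intro v hv
    have hex : ∃ k, k0 ≤ k ∧ v ≤ l k := by
      obtain ⟨k, hk1, hk2⟩ := ((eventually_ge_atTop k0).and (hlim.eventually_ge_atTop v)).exists
      exact ⟨k, hk1, hk2⟩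
    classical
    let k := Nat.find hex
    have hk : k0 ≤ k ∧ v ≤ l k := Nat.find_spec hex
    refine ⟨k, hk.1, le_antisymm ?_ hk.2⟩
    rcases hk.1.eq_or_lt with h1 | h1
    · rw [← h1]; exact hv
    · have h2 : ¬ (k0 ≤ k - 1 ∧ v ≤ l (k - 1)) := Nat.find_min hex (by omega)
      have h3 : l (k - 1) < v := by
        by_contra h4
        exact h2 ⟨by omega, by omega⟩
      have h4 := hl1 (k - 1)
      rw [show k - 1 + 1 = k by omega] at h4
      omega
  have key : ∀ n : ℕ, ∃ k, k0 ≤ k ∧ -B + n * ε ≤ h k := by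
    intro n
    induction n with
    | zero => exact ⟨k0, le_rfl, by simpa using (abs_le.1 (hB k0)).1⟩
    | succ n ih =>
      obtain ⟨k, hk, hhk⟩ := ih
      obtain ⟨k', hk', hlk'⟩ := hsurj k ((hlk k0).trans hk)
      refine ⟨k', hk', ?_⟩
      have h1 := hcon k' hk'
      rw [hlk'] at h1
      push_cast
      linarith
  obtain ⟨n, hn⟩ := exists_nat_gt (2 * B / ε)
  obtain ⟨k, -, hk⟩ := key n
  have h1 := (abs_le.1 (hB k)).2
  rw [div_lt_iff₀ hε] at hn
  linarith

end Pool.Agent.R660.BS.GOODK
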