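import Pool.Agent.R660.BS.Defs

open Set Filter Topology MeasureTheory
open scoped ENNReal

namespace Pool.Agent.R660.BS.LIM

variable {d : ℕ} {A : Fin d → Type}

lemma iter_eq (p : Param d A) (i : Fin d) (n : ℕ) : ∀ ω : ℕ → (i : Fin d) → A i,
    iter p i n ω = ∑ k ∈ Finset.range n, (∏ m ∈ Finset.range k, (p i (ω m i)).1) *
      (p i (ω k i)).2 := by
  induction n with
  | zero => intro ω; simp [iter]
  | succ n ih =>
    intro ω
    rw [iter, ih, phi, Finset.sum_range_succ', Finset.mul_sum]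
    congr 1
    · apply Finset.sum_congr rfl
      intro k _
      rw [Finset.prod_range_succ']
      ring
    · simp

lemma summable_pt (q : Fin 16 → ℝ) (hq : ∀ a, 0 < q a ∧ q a < 1 / 16) (ω : ℕ → Fin 16) :
    Summable (fun k => (∏ m ∈ Finset.range k, q (ω m)) * (((ω k).val : ℝ) / 16)) := by
  have hg : Summable (fun k : ℕ => ((1 : ℝ) / 16) ^ k) :=
    summable_geometric_of_lt_one (by norm_num) (by norm_num)
  refine Summable.of_nonneg_of_le (fun k => ?_) (fun k => ?_) hg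
  · apply mul_nonneg
    · exact Finset.prod_nonneg fun m _ => (hq _).1.le
    · positivity
  · have h1 : (∏ m ∈ Finset.range k, q (ω m)) ≤ (1 / 16 : ℝ) ^ k := by
      calc (∏ m ∈ Finset.range k, q (ω m)) ≤ ∏ m ∈ Finset.range k, (1 / 16 : ℝ) :=
            Finset.prod_le_prod (fun m _ => (hq _).1.le) (fun m _ => (hq _).2.le)
        _ = (1 / 16 : ℝ) ^ k := by simp
    have h2 : ((ω k).val : ℝ) / 16 ≤ 1 := by
      have : ((ω k).val : ℝ) ≤ 16 := by exact_mod_cast (ω k).isLt.le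
      linarith
    calc _ ≤ (1 / 16 : ℝ) ^ k * 1 := by
            apply mul_le_mul h1 h2 (by positivity) (by positivity)
      _ = _ := by ring

lemma tendsto_pt (q : Fin 16 → ℝ) (hq : ∀ a, 0 < q a ∧ q a < 1 / 16) (ω : ℕ → Fin 16) :
    Tendsto (fun n => ∑ k ∈ Finset.range n, (∏ m ∈ Finset.range k, q (ω m)) *
      (((ω k).val : ℝ) / 16)) atTop (𝓝 (pt q ω)) :=
  (summable_pt q hq ω).hasSum.tendsto_sum_nat

lemma hqX {ρ0 ρ1 : ℝ} (h0 : 0 < ρ0) (h1 : 0 < ρ1) (h0' : ρ0 < 1 / 16) (h1' : ρ1 < 1 / 16) :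
    ∀ a, 0 < qX ρ0 ρ1 a ∧ qX ρ0 ρ1 a < 1 / 16 := by
  intro a
  unfold qX
  split_ifs
  · exact ⟨h0, h0'⟩
  · exact ⟨h1, h1'⟩

lemma iter_zero (ρ0 ρ1 r : ℝ) (n : ℕ) (ω : ℕ → Fin 2 → Fin 16) :
    iter (par ρ0 ρ1 r) 0 n ω = ∑ k ∈ Finset.range n,
      (∏ m ∈ Finset.range k, qX ρ0 ρ1 (ω m 0)) * (((ω k 0).val : ℝ) / 16) := by
  rw [iter_eq]
  simp [par]

lemma iter_one (ρ0 ρ1 r : ℝ) (n : ℕ) (ω : ℕ → Fin 2 → Fin 16) :
    iter (par ρ0 ρ1 r) 1 n ω = ∑ k ∈ Finset.range n,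
      (∏ _m ∈ Finset.range k, r) * (((ω k 1).val : ℝ) / 16) := by
  rw [iter_eq]
  simp [par]

lemma image_limitSet (ρ0 ρ1 r : ℝ) (h0 : 0 < ρ0) (h1 : 0 < ρ1) (hr : 0 < r)
    (h0' : ρ0 < 1 / 16) (h1' : ρ1 < 1 / 16) (hr' : r < 1 / 16) :
    ((EuclideanSpace.equiv (Fin 2) ℝ).trans (ContinuousLinearEquiv.finTwoArrow ℝ ℝ)) ''
      limitSet EE (par ρ0 ρ1 r) = KK ρ0 ρ1 r := by
  have hr2 : ∀ a : Fin 16, 0 < (fun _ : Fin 16 => r) a ∧ (fun _ : Fin 16 => r) a < 1 / 16 :=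
    fun _ => ⟨hr, hr'⟩
  ext ⟨u, v⟩
  constructor
  · rintro ⟨x, ⟨ω, hω, hx⟩, hxe⟩
    refine ⟨fun n => ω n 0, ?_⟩
    have hrow : (fun k => row (ω k 0)) = fun k => ω k 1 := by
      funext k
      exact (hω k).symm
    have e0 : x 0 = pt (qX ρ0 ρ1) (fun n => ω n 0) := by
      refine tendsto_nhds_unique (hx 0) ?_
      simp only [iter_zero]
      exact tendsto_pt _ (hqX h0 h1 h0' h1') (fun n => ω n 0)
    have e1 : x 1 = pt (fun _ => r) (fun k => row (ω k 0)) := by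
      rw [hrow]
      refine tendsto_nhds_unique (hx 1) ?_
      simp only [iter_one]
      exact tendsto_pt _ hr2 (fun n => ω n 1)
    have : ((EuclideanSpace.equiv (Fin 2) ℝ).trans (ContinuousLinearEquiv.finTwoArrow ℝ ℝ)) x
      = (x 0, x 1) := rfl
    rw [this, e0, e1] at hxe
    exact hxe
  · rintro ⟨ω, hω⟩
    refine ⟨!₂[u, v], ⟨fun n => ![ω n, row (ω n)], ?_, ?_⟩, ?_⟩
    · intro n
      simp [EE]
    · intro i
      simp only [Prod.mk.injEq] at hω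
      obtain ⟨hu, hv⟩ := hω
      fin_cases i
      · have := tendsto_pt _ (hqX h0 h1 h0' h1') ω
        rw [hu] at this
        have h2 := fun n => iter_zero ρ0 ρ1 r n (fun n => ![ω n, row (ω n)])
        simp only [Fin.zero_eta, Fin.isValue]
        simp only [h2]
        simpa using this
      · have := tendsto_pt _ hr2 (fun k => row (ω k))
        rw [hv] at this
        have h2 := fun n => iter_one ρ0 ρ1 r n (fun n => ![ω n, row (ω n)])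
        simp only [Fin.mk_one, Fin.isValue]
        simp only [h2]
        simpa using this
    · rfl

lemma par_phi (ρ0 ρ1 r : ℝ) (h0 : 0 < ρ0) (h1 : 0 < ρ1) (hr : 0 < r)
    (h0' : ρ0 < 1 / 16) (h1' : ρ1 < 1 / 16) (hr' : r < 1 / 16) (i : Fin 2) (a : Fin 16) :
    0 < (par ρ0 ρ1 r i a).1 ∧ (par ρ0 ρ1 r i a).1 < 1 / 16 := by
  unfold par
  simp only
  split_ifs
  · exact hqX h0 h1 h0' h1' a
  · exact ⟨hr, hr'⟩

lemma phi_mem (ρ0 ρ1 r : ℝ) (h0 : 0 < ρ0) (h1 : 0 < ρ1) (hr : 0 < r)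
    (h0' : ρ0 < 1 / 16) (h1' : ρ1 < 1 / 16) (hr' : r < 1 / 16) (i : Fin 2) (a : Fin 16)
    (x : ℝ) (hx : x ∈ Icc (0 : ℝ) 1) :
    (a.val : ℝ) / 16 ≤ phi (par ρ0 ρ1 r) i a x ∧
      phi (par ρ0 ρ1 r) i a x < ((a.val : ℝ) + 1) / 16 := by
  obtain ⟨hp, hp'⟩ := par_phi ρ0 ρ1 r h0 h1 hr h0' h1' hr' i a
  have e : (par ρ0 ρ1 r i a).2 = (a.val : ℝ) / 16 := rfl
  unfold phi
  rw [e]
  constructor
  · nlinarith [hx.1, mul_nonneg hp.le hx.1]
  · nlinarith [hx.2, mul_le_mul_of_nonneg_left hx.2 hp.le]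

lemma sb (ρ0 ρ1 r : ℝ) (h0 : 0 < ρ0) (h1 : 0 < ρ1) (hr : 0 < r)
    (h0' : ρ0 < 1 / 16) (h1' : ρ1 < 1 / 16) (hr' : r < 1 / 16) :
    par ρ0 ρ1 r ∈ StronglyBaranski 2 (fun _ => Fin 16) := by
  refine ⟨?_, ?_⟩
  · intro i a
    obtain ⟨hp, hp'⟩ := par_phi ρ0 ρ1 r h0 h1 hr h0' h1' hr' i a
    refine ⟨abs_pos.2 hp.ne', ?_, ?_⟩
    · rw [abs_of_pos hp]
      linarith
    · intro x hx
      obtain ⟨ha, hb⟩ := phi_mem ρ0 ρ1 r h0 h1 hr h0' h1' hr' i a x hx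
      have h16 : (a.val : ℝ) + 1 ≤ 16 := by exact_mod_cast a.isLt
      have h00 : (0 : ℝ) ≤ (a.val : ℝ) := Nat.cast_nonneg _
      constructor
      · refine le_trans ?_ ha
        positivity
      · refine le_trans hb.le ?_
        linarith
  · intro i a b hab
    rw [Set.disjoint_left]
    rintro y ⟨x, hx, rfl⟩ ⟨x', hx', hxx⟩
    obtain ⟨ha, hb⟩ := phi_mem ρ0 ρ1 r h0 h1 hr h0' h1' hr' i a x hx
    obtain ⟨ha', hb'⟩ := phi_mem ρ0 ρ1 r h0 h1 hr h0' h1' hr' i b x' hx'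
    rw [hxx] at ha' hb'
    apply hab
    apply Fin.ext
    have k1 : (a.val : ℝ) < (b.val : ℝ) + 1 := by linarith
    have k2 : (b.val : ℝ) < (a.val : ℝ) + 1 := by linarith
    have k1' : a.val < b.val + 1 := by exact_mod_cast k1
    have k2' : b.val < a.val + 1 := by exact_mod_cast k2
    omega

theorem main : S_LIM := by
  intro ρ0 ρ1 r h0 h1 hr h0' h1' hr'
  refine ⟨?_, sb ρ0 ρ1 r h0 h1 hr h0' h1' hr', ?_⟩
  · rw [← image_limitSet ρ0 ρ1 r h0 h1 hr h0' h1' hr']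
    rw [ContinuousLinearEquiv.dimH_image]
  · obtain ⟨ha, hb⟩ := sb ρ0 ρ1 r h0 h1 hr h0' h1' hr'
    refine ⟨ha, fun i a b hab => ?_⟩
    exact (hb i a b hab).mono (Set.image_mono Ioo_subset_Icc_self)
      (Set.image_mono Ioo_subset_Icc_self)

end Pool.Agent.R660.BS.LIM
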