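import Pool.Agent.R660.BS.Defs

/-! Project BS (helper660), piece LOW by helper506: lower bound, limit of blocks. -/

set_option autoImplicit false

open Set Filter Topology

namespace Pool.Agent.R660.BS.LOW

lemma tend_log : Tendsto (fun N : ℕ => Real.log ((N : ℝ) + 1) / N) atTop (𝓝 0) := by
  have h1 := Real.tendsto_pow_log_div_mul_add_atTop 1 (-1) 1 one_ne_zero
  have h2 : Tendsto (fun N : ℕ => (N : ℝ) + 1) atTop atTop :=
    tendsto_atTop_add_const_right _ _ tendsto_natCast_atTop_atTop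
  refine (h1.comp h2).congr fun N => ?_
  simp

theorem main (h : S_BLK) (hch : S_CHOOSE) : S_LOW := by
  intro ρ0 ρ1 r θ h0 h1 h0r h1r hr hθ
  have hr0 : 0 < r := h0.trans_le h0r
  have hc : 0 < -Real.log r := by
    have := Real.log_neg hr0 (by linarith)
    linarith
  have hκ0 : 0 < -Real.log ρ0 := by
    have := Real.log_neg h0 (by linarith)
    linarith
  have hκ1 : 0 < -Real.log ρ1 := by
    have := Real.log_neg h1 (by linarith)
    linarith
  set c : ℝ := -Real.log r with hcdef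
  set κ0 : ℝ := -Real.log ρ0 with hκ0def
  set κ1 : ℝ := -Real.log ρ1 with hκ1def
  have hfl : Tendsto (fun N : ℕ => ((⌊θ * (N : ℝ)⌋₊ : ℕ) : ℝ) / (N : ℝ)) atTop (𝓝 θ) :=
    (tendsto_nat_floor_mul_div_atTop hθ.1).comp tendsto_natCast_atTop_atTop
  have hden : 0 < θ * κ0 + (1 - θ) * κ1 := by
    rcases eq_or_lt_of_le hθ.1 with h | h
    · rw [← h]
      simpa using hκ1
    · have : 0 ≤ (1 - θ) * κ1 := mul_nonneg (by linarith [hθ.2]) hκ1.le
      have : 0 < θ * κ0 := mul_pos h hκ0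
      linarith
  have hlim : Tendsto (fun N : ℕ => Real.binEntropy (((⌊θ * (N : ℝ)⌋₊ : ℕ) : ℝ) / (N : ℝ)) / c -
      (Real.log ((N : ℝ) + 1) / N) / c + Real.log 8 / ((((⌊θ * (N : ℝ)⌋₊ : ℕ) : ℝ) / (N : ℝ)) * κ0 +
        (1 - ((⌊θ * (N : ℝ)⌋₊ : ℕ) : ℝ) / (N : ℝ)) * κ1)) atTop (𝓝 (DD c κ0 κ1 θ)) := by
    have e : DD c κ0 κ1 θ = Real.binEntropy θ / c - 0 / c + Real.log 8 / (θ * κ0 + (1 - θ) * κ1) := by
      rw [DD]
      simp
    rw [e]
    refine ((((Real.binEntropy_continuous.tendsto θ).comp hfl).div_const c).sub (tend_log.div_const c)).add ?_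
    exact tendsto_const_nhds.div ((hfl.mul_const κ0).add ((hfl.const_sub 1).mul_const κ1)) hden.ne'
  have hlim2 := (ENNReal.continuous_ofReal.tendsto (DD c κ0 κ1 θ)).comp hlim
  refine le_of_tendsto hlim2 ?_
  filter_upwards [eventually_ge_atTop 1] with N hN
  have hN0 : (0 : ℝ) < N := by exact_mod_cast hN
  have hu : ⌊θ * (N : ℝ)⌋₊ ≤ N := by
    refine Nat.floor_le_of_le ?_
    nlinarith [hθ.2]
  have hb := h ρ0 ρ1 r N ⌊θ * (N : ℝ)⌋₊ h0 h1 h0r h1r hr hN hu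
  refine le_trans (ENNReal.ofReal_le_ofReal ?_) hb
  have h3 := (hch N ⌊θ * (N : ℝ)⌋₊ hN hu).2
  have h4 : Real.binEntropy (((⌊θ * (N : ℝ)⌋₊ : ℕ) : ℝ) / (N : ℝ)) / c - (Real.log ((N : ℝ) + 1) / N) / c ≤
      Real.log (N.choose ⌊θ * (N : ℝ)⌋₊) / (N * c) := by
    have e : Real.binEntropy (((⌊θ * (N : ℝ)⌋₊ : ℕ) : ℝ) / (N : ℝ)) / c - (Real.log ((N : ℝ) + 1) / N) / c =
        (N * Real.binEntropy (((⌊θ * (N : ℝ)⌋₊ : ℕ) : ℝ) / (N : ℝ)) - Real.log ((N : ℝ) + 1)) / (N * c) := by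
      field_simp
    rw [e]
    refine div_le_div_of_nonneg_right ?_ (by positivity)
    linarith
  linarith

end Pool.Agent.R660.BS.LOW
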