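import Pool.Agent.R660.BS.Defs

/-!
# Project BS, piece NP: abstract obstruction to piecewise analyticity (helper771)
-/

set_option autoImplicit false

open Set Filter Topology MeasureTheory

namespace Pool.Agent.R660.BS.NP

/-- Taylor expansion of order one with quadratic remainder. -/
lemma taylor (h : ℝ → ℝ) (hh : AnalyticAt ℝ h 0) :
    ∃ a1 M : ℝ, 0 ≤ M ∧ ∀ᶠ t in 𝓝 (0 : ℝ), |h t - h 0 - a1 * t| ≤ M * t ^ 2 := by
  obtain ⟨p, hp⟩ := hh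
  have hO := hp.isBigO_sub_partialSum_pow 2
  obtain ⟨M, hM⟩ := hO.bound
  have h0 : h 0 = p.coeff 0 := by
    have := hp.coeff_zero (fun _ => (1 : ℝ))
    rw [← this, p.apply_eq_pow_smul_coeff]
    simp
  refine ⟨p.coeff 1, |M|, abs_nonneg _, ?_⟩
  filter_upwards [hM] with t ht
  have hs : p.partialSum 2 t = h 0 + p.coeff 1 * t := by
    unfold FormalMultilinearSeries.partialSum
    rw [Finset.sum_range_succ, Finset.sum_range_one, p.apply_eq_pow_smul_coeff,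
      p.apply_eq_pow_smul_coeff, h0]
    simp [mul_comm]
  rw [hs, zero_add, Real.norm_eq_abs] at ht
  have e1 : h t - h 0 - p.coeff 1 * t = h t - (h 0 + p.coeff 1 * t) := by ring
  rw [e1]
  refine ht.trans ?_
  have e2 : ‖‖t‖ ^ 2‖ = t ^ 2 := by
    rw [Real.norm_eq_abs, Real.norm_eq_abs, sq_abs, abs_of_nonneg (sq_nonneg t)]
  rw [e2]
  exact mul_le_mul_of_nonneg_right (le_abs_self M) (sq_nonneg t)

theorem main : S_NP := by
  intro V _ _ F S γ D0 b C ε hγ hC hε hS hlow hup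
  rintro ⟨Pc, hcov, hPc, hloc⟩
  have hx0 : γ 0 ∈ S := hS 0 ⟨le_rfl, hε.le⟩
  obtain ⟨U, hUo, hxU, hfin⟩ := hloc _ hx0
  have hγc : Tendsto γ (𝓝[>] (0 : ℝ)) (𝓝 (γ 0)) :=
    hγ.continuousAt.tendsto.mono_left nhdsWithin_le_nhds
  -- some piece contains points of the curve arbitrarily close to `0`
  have hex : ∃ P ∈ {P | P ∈ Pc ∧ (P ∩ U).Nonempty}, ∃ᶠ t in 𝓝[>] (0 : ℝ), γ t ∈ P := by
    by_contra hcon
    push Not at hcon
    have hall : ∀ᶠ t in 𝓝[>] (0 : ℝ), ∀ P ∈ {P | P ∈ Pc ∧ (P ∩ U).Nonempty}, γ t ∉ P := by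
      rw [Filter.eventually_all_finite hfin]
      intro P hP
      exact Filter.not_frequently.1 (by simpa [Filter.not_frequently] using hcon P hP)
    have hev1 : ∀ᶠ t in 𝓝[>] (0 : ℝ), γ t ∈ U := hγc.eventually (hUo.mem_nhds hxU)
    have hev2 : ∀ᶠ t in 𝓝[>] (0 : ℝ), t ∈ Ioo (0 : ℝ) ε := Ioo_mem_nhdsGT hε
    obtain ⟨t, h1, h2, h3⟩ := (hall.and (hev1.and hev2)).exists
    obtain ⟨P, hP, htP⟩ := hcov (hS t ⟨h3.1.le, h3.2.le⟩)
    exact h1 P ⟨hP, ⟨γ t, htP, h2⟩⟩ htP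
  obtain ⟨P, ⟨hP, _⟩, hfr⟩ := hex
  obtain ⟨⟨Cl, hCl, hPeq⟩, _, hAn⟩ := hPc P hP
  have hx0P : γ 0 ∈ P := by
    have : γ 0 ∈ Cl := by
      refine hCl.mem_of_frequently_of_tendsto ?_ hγc
      exact hfr.mono fun t ht => by rw [hPeq] at ht; exact ht.2
    rw [hPeq]
    exact ⟨hx0, this⟩
  obtain ⟨U', hU'o, hxU', G, hG, hFG⟩ := hAn _ hx0P
  have hGγ : AnalyticAt ℝ (fun t => G (γ t)) 0 := (hG _ hxU').comp_of_eq hγ rfl
  obtain ⟨a1, M, hM, hT⟩ := taylor _ hGγ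
  -- the value at zero
  have hF0 : F (γ 0) = D0 := by
    apply le_antisymm
    · obtain ⟨δ, hδ, h⟩ := hup 1 one_pos
      have := h 0 ⟨le_rfl, hδ.le⟩
      simpa using this
    · have := hlow 0 ⟨le_rfl, hε.le⟩
      have e : (0 : ℝ) ^ ((4 : ℝ) / 3) = 0 := Real.zero_rpow (by norm_num)
      rw [e] at this
      simpa using this
  have hG0 : G (γ 0) = D0 := by rw [← hFG _ ⟨hx0P, hxU'⟩, hF0]
  have hT' : ∀ᶠ t in 𝓝[>] (0 : ℝ), |G (γ t) - D0 - a1 * t| ≤ M * t ^ 2 := by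
    have := hT.filter_mono (nhdsWithin_le_nhds (s := Ioi (0 : ℝ)))
    filter_upwards [this] with t ht
    simpa [hG0] using ht
  have hevU : ∀ᶠ t in 𝓝[>] (0 : ℝ), γ t ∈ U' := hγc.eventually (hU'o.mem_nhds hxU')
  have hevε : ∀ᶠ t in 𝓝[>] (0 : ℝ), t ∈ Ioo (0 : ℝ) ε := Ioo_mem_nhdsGT hε
  -- slope comparison
  have hab : a1 ≤ b := by
    by_contra hcon
    push Not at hcon
    have hd : 0 < (a1 - b) / 3 := by linarith
    obtain ⟨δ, hδ, h⟩ := hup _ hd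
    have hev1 : ∀ᶠ t in 𝓝[>] (0 : ℝ), t ∈ Ioo (0 : ℝ) δ := Ioo_mem_nhdsGT hδ
    have hev2 : ∀ᶠ t in 𝓝[>] (0 : ℝ), t ∈ Ioo (0 : ℝ) ((a1 - b) / 3 / (M + 1)) :=
      Ioo_mem_nhdsGT (by positivity)
    obtain ⟨t, h1, h2, h3, h4, h5⟩ :=
      (hfr.and_eventually (hT'.and (hevU.and (hev1.and hev2)))).exists
    have hFt : F (γ t) = G (γ t) := hFG _ ⟨h1, h3⟩
    have hu := h t ⟨h4.1.le, h4.2.le⟩
    rw [hFt] at hu
    have ht0 : 0 < t := h4.1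
    have h2' := (abs_le.1 h2).1
    have h6 : M * t ≤ (a1 - b) / 3 := by
      have := h5.2
      rw [lt_div_iff₀ (by linarith)] at this
      nlinarith
    have h7 : M * t ^ 2 ≤ (a1 - b) / 3 * t := by
      calc M * t ^ 2 = (M * t) * t := by ring
        _ ≤ _ := mul_le_mul_of_nonneg_right h6 ht0.le
    have h8 : a1 * t ≤ b * t + (a1 - b) / 3 * t + (a1 - b) / 3 * t := by linarith
    nlinarith
  -- final contradiction
  have hev3 : ∀ᶠ t in 𝓝[>] (0 : ℝ), M * t ^ ((2 : ℝ) / 3) < C := by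
    have hc : ContinuousAt (fun t : ℝ => M * t ^ ((2 : ℝ) / 3)) 0 :=
      continuousAt_const.mul (Real.continuousAt_rpow_const _ _ (Or.inr (by norm_num)))
    have : Tendsto (fun t : ℝ => M * t ^ ((2 : ℝ) / 3)) (𝓝[>] (0 : ℝ)) (𝓝 0) := by
      have h := hc.tendsto.mono_left (nhdsWithin_le_nhds (s := Ioi (0 : ℝ)))
      simpa [Real.zero_rpow (show ((2 : ℝ) / 3) ≠ 0 by norm_num)] using h
    exact this.eventually (gt_mem_nhds hC)
  obtain ⟨t, h1, h2, h3, h4, h5⟩ :=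
    (hfr.and_eventually (hT'.and (hevU.and (hevε.and hev3)))).exists
  have hFt : F (γ t) = G (γ t) := hFG _ ⟨h1, h3⟩
  have ht0 : 0 < t := h4.1
  have hl := hlow t ⟨h4.1.le, h4.2.le⟩
  rw [hFt] at hl
  have h2' := (abs_le.1 h2).2
  have hpow : t ^ 2 = t ^ ((4 : ℝ) / 3) * t ^ ((2 : ℝ) / 3) := by
    rw [← Real.rpow_add ht0, ← Real.rpow_natCast]
    norm_num
  have hpos : 0 < t ^ ((4 : ℝ) / 3) := Real.rpow_pos_of_pos ht0 _
  have h9 : C * t ^ ((4 : ℝ) / 3) ≤ M * t ^ 2 := by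
    have : a1 * t ≤ b * t := mul_le_mul_of_nonneg_right hab ht0.le
    linarith
  rw [hpow] at h9
  have h10 : C * t ^ ((4 : ℝ) / 3) ≤ (M * t ^ ((2 : ℝ) / 3)) * t ^ ((4 : ℝ) / 3) := by
    calc _ ≤ _ := h9
      _ = _ := by ring
  have h11 : C ≤ M * t ^ ((2 : ℝ) / 3) := le_of_mul_le_mul_right h10 hpos
  linarith

end Pool.Agent.R660.BS.NP
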