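import Pool.Agent.R660.BS.Defs

/-! BS-UP: upper bound of the Hausdorff dimension by coverings (helper888). -/

open Set Filter Topology MeasureTheory
open scoped ENNReal NNReal

namespace Pool.Agent.R660.BS.UP

noncomputable def W (ρ0 ρ1 : ℝ) (ω : ℕ → Fin 16) (l : ℕ) : ℝ :=
  ∏ m ∈ Finset.range l, qX ρ0 ρ1 (ω m)

def Z (ω : ℕ → Fin 16) (l : ℕ) : ℕ := ∑ m ∈ Finset.range l, if (ω m).val < 8 then 1 else 0

lemma Z_le (ω : ℕ → Fin 16) (l : ℕ) : Z ω l ≤ l := by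
  unfold Z
  calc _ ≤ ∑ m ∈ Finset.range l, 1 := by
        apply Finset.sum_le_sum
        intro m _
        split_ifs <;> simp
    _ = l := by simp

lemma Z_succ (ω : ℕ → Fin 16) (l : ℕ) :
    Z ω (l + 1) = Z ω l + if (ω l).val < 8 then 1 else 0 := by
  unfold Z
  rw [Finset.sum_range_succ]

section
variable {ρ0 ρ1 r : ℝ}

lemma qX_pos (h0 : 0 < ρ0) (h1 : 0 < ρ1) (a : Fin 16) : 0 < qX ρ0 ρ1 a := by
  unfold qX; split_ifs <;> assumption

lemma qX_le (h0 : ρ0 ≤ r) (h1 : ρ1 ≤ r) (a : Fin 16) : qX ρ0 ρ1 a ≤ r := by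
  unfold qX; split_ifs <;> assumption

lemma le_qX (a : Fin 16) : min ρ0 ρ1 ≤ qX ρ0 ρ1 a := by
  unfold qX; split_ifs
  · exact min_le_left _ _
  · exact min_le_right _ _

lemma W_pos (h0 : 0 < ρ0) (h1 : 0 < ρ1) (ω : ℕ → Fin 16) (l : ℕ) : 0 < W ρ0 ρ1 ω l :=
  Finset.prod_pos (fun _ _ => qX_pos h0 h1 _)

lemma W_succ (ω : ℕ → Fin 16) (l : ℕ) :
    W ρ0 ρ1 ω (l + 1) = W ρ0 ρ1 ω l * qX ρ0 ρ1 (ω l) := by
  unfold W
  rw [Finset.prod_range_succ]

lemma W_le_pow (h0 : 0 < ρ0) (h1 : 0 < ρ1) (h0r : ρ0 ≤ r) (h1r : ρ1 ≤ r) (ω : ℕ → Fin 16) (l : ℕ) :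
    W ρ0 ρ1 ω l ≤ r ^ l := by
  unfold W
  calc _ ≤ ∏ m ∈ Finset.range l, r :=
        Finset.prod_le_prod (fun _ _ => (qX_pos h0 h1 _).le) (fun _ _ => qX_le h0r h1r _)
    _ = r ^ l := by simp

lemma W_anti (h0 : 0 < ρ0) (h1 : 0 < ρ1) (h0r : ρ0 ≤ r) (h1r : ρ1 ≤ r) (hr : r < 1 / 16)
    (ω : ℕ → Fin 16) : Antitone (W ρ0 ρ1 ω) := by
  apply antitone_nat_of_succ_le
  intro l
  rw [W_succ]
  have h2 := W_pos h0 h1 ω l
  have h3 := qX_le h0r h1r (ω l)
  nlinarith [qX_pos h0 h1 (ω l)]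

lemma log_W (h0 : 0 < ρ0) (h1 : 0 < ρ1) (ω : ℕ → Fin 16) (l : ℕ) :
    Real.log (W ρ0 ρ1 ω l) = (Z ω l) * Real.log ρ0 + (l - Z ω l) * Real.log ρ1 := by
  induction l with
  | zero => simp [W, Z]
  | succ l ih =>
    rw [W_succ, Real.log_mul (W_pos h0 h1 ω l).ne' (qX_pos h0 h1 _).ne', ih, Z_succ]
    unfold qX
    split_ifs <;> push_cast <;> ring

open Classical in
noncomputable def lc (ρ0 ρ1 r : ℝ) (ω : ℕ → Fin 16) (k : ℕ) : ℕ :=
  Nat.findGreatest (fun l => r ^ k ≤ W ρ0 ρ1 ω l) k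

lemma lc_le (ω : ℕ → Fin 16) (k : ℕ) : lc ρ0 ρ1 r ω k ≤ k := Nat.findGreatest_le k

lemma lc_spec (hr0 : 0 < r) (hr : r < 1 / 16) (ω : ℕ → Fin 16) (k : ℕ) :
    r ^ k ≤ W ρ0 ρ1 ω (lc ρ0 ρ1 r ω k) := by
  classical
  have h : r ^ k ≤ W ρ0 ρ1 ω 0 := by
    unfold W
    simp
    exact pow_le_one₀ hr0.le (by linarith)
  exact Nat.findGreatest_spec (P := fun l => r ^ k ≤ W ρ0 ρ1 ω l) (Nat.zero_le k) h

lemma lc_succ_lt (h0 : 0 < ρ0) (h1 : 0 < ρ1) (h0r : ρ0 ≤ r) (h1r : ρ1 ≤ r) (hr : r < 1 / 16)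
    (ω : ℕ → Fin 16) (k : ℕ) : W ρ0 ρ1 ω (lc ρ0 ρ1 r ω k + 1) < r ^ k := by
  classical
  have hr0 : 0 < r := h0.trans_le h0r
  rcases (lc_le (ρ0 := ρ0) (ρ1 := ρ1) (r := r) ω k).eq_or_lt with h | h
  · rw [h]
    refine (W_le_pow h0 h1 h0r h1r ω (k + 1)).trans_lt ?_
    rw [pow_succ]
    have : 0 < r ^ k := by positivity
    nlinarith
  · have h2 := Nat.findGreatest_is_greatest (P := fun l => r ^ k ≤ W ρ0 ρ1 ω l) (n := k)
      (k := lc ρ0 ρ1 r ω k + 1) (Nat.lt_succ_self _) h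
    exact not_le.1 h2

lemma lc_succ (h0 : 0 < ρ0) (h1 : 0 < ρ1) (h0r : ρ0 ≤ r) (h1r : ρ1 ≤ r) (hr : r < 1 / 16)
    (ω : ℕ → Fin 16) (k : ℕ) : lc ρ0 ρ1 r ω (k + 1) ≤ lc ρ0 ρ1 r ω k + 1 := by
  have hr0 : 0 < r := h0.trans_le h0r
  by_contra hcon
  have h2 : lc ρ0 ρ1 r ω k + 2 ≤ lc ρ0 ρ1 r ω (k + 1) := by omega
  have h3 := lc_spec (ρ0 := ρ0) (ρ1 := ρ1) hr0 hr ω (k + 1)
  have h4 := W_anti h0 h1 h0r h1r hr ω h2
  have h5 := lc_succ_lt h0 h1 h0r h1r hr ω k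
  have h6 : W ρ0 ρ1 ω (lc ρ0 ρ1 r ω k + 2) ≤ W ρ0 ρ1 ω (lc ρ0 ρ1 r ω k + 1) * r := by
    rw [W_succ (l := lc ρ0 ρ1 r ω k + 1)]
    exact mul_le_mul_of_nonneg_left (qX_le h0r h1r _) (W_pos h0 h1 _ _).le
  rw [pow_succ] at h3
  have h7 : W ρ0 ρ1 ω (lc ρ0 ρ1 r ω k + 1) * r < r ^ k * r := mul_lt_mul_of_pos_right h5 hr0
  linarith

lemma lc_tendsto (h0 : 0 < ρ0) (h1 : 0 < ρ1) (h0r : ρ0 ≤ r) (hr : r < 1 / 16)
    (ω : ℕ → Fin 16) : Tendsto (lc ρ0 ρ1 r ω) atTop atTop := by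
  classical
  have hr0 : 0 < r := h0.trans_le h0r
  rw [tendsto_atTop]
  intro M
  have h2 : Tendsto (fun k : ℕ => r ^ k) atTop (𝓝 0) :=
    tendsto_pow_atTop_nhds_zero_of_lt_one hr0.le (by linarith)
  filter_upwards [h2.eventually (gt_mem_nhds (W_pos h0 h1 ω M)), eventually_ge_atTop M] with k h3 h4
  exact Nat.le_findGreatest h4 h3.le

lemma W_lc_le (h0 : 0 < ρ0) (h1 : 0 < ρ1) (h0r : ρ0 ≤ r) (h1r : ρ1 ≤ r) (hr : r < 1 / 16)
    (ω : ℕ → Fin 16) (k : ℕ) :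
    W ρ0 ρ1 ω (lc ρ0 ρ1 r ω k) ≤ r ^ k / min ρ0 ρ1 := by
  have h2 := lc_succ_lt h0 h1 h0r h1r hr ω k
  rw [W_succ] at h2
  rw [le_div_iff₀ (lt_min h0 h1)]
  have h3 : W ρ0 ρ1 ω (lc ρ0 ρ1 r ω k) * min ρ0 ρ1
      ≤ W ρ0 ρ1 ω (lc ρ0 ρ1 r ω k) * qX ρ0 ρ1 (ω (lc ρ0 ρ1 r ω k)) :=
    mul_le_mul_of_nonneg_left (le_qX _) (W_pos h0 h1 _ _).le
  linarith

/-- the key selection of levels -/
lemma good (hG : S_GOODK) (h0 : 0 < ρ0) (h1 : 0 < ρ1) (h0r : ρ0 ≤ r) (h1r : ρ1 ≤ r)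
    (hr : r < 1 / 16) {s s'' : ℝ}
    (hs : ∀ θ ∈ Icc (0 : ℝ) 1, DD (-Real.log r) (-Real.log ρ0) (-Real.log ρ1) θ ≤ s)
    (hss : s < s'') (ω : ℕ → Fin 16) (n : ℕ) :
    ∃ k l : ℕ, n ≤ k ∧ 1 ≤ k ∧ l ≤ k ∧ W ρ0 ρ1 ω l ≤ r ^ k / min ρ0 ρ1 ∧
      k * Real.binEntropy ((Z ω k : ℝ) / k) + l * Real.log 8 ≤ k * (-Real.log r) * s'' := by
  have hr0 : 0 < r := h0.trans_le h0r
  have hc : 0 < -Real.log r := by
    have := Real.log_neg hr0 (by linarith)
    linarith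
  have hκ0 : -Real.log r ≤ -Real.log ρ0 := by
    have := Real.log_le_log h0 h0r
    linarith
  have hκ1 : -Real.log r ≤ -Real.log ρ1 := by
    have := Real.log_le_log h1 h1r
    linarith
  set c := -Real.log r with hcdef
  set κ0 := -Real.log ρ0 with hκ0def
  set κ1 := -Real.log ρ1 with hκ1def
  have hθ : ∀ k : ℕ, 0 ≤ (Z ω k : ℝ) / k ∧ (Z ω k : ℝ) / k ≤ 1 := by
    intro k
    refine ⟨by positivity, ?_⟩
    rcases Nat.eq_zero_or_pos k with rfl | hk
    · simp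
    · rw [div_le_one (by exact_mod_cast hk)]
      exact_mod_cast Z_le ω k
  have hb : ∀ k : ℕ, |Real.binEntropy ((Z ω k : ℝ) / k)| ≤ Real.log 2 := by
    intro k
    rw [abs_of_nonneg (Real.binEntropy_nonneg (hθ k).1 (hθ k).2)]
    exact Real.binEntropy_le_log_two
  obtain ⟨k1, hk1⟩ := (tendsto_atTop.1 (lc_tendsto (ρ1 := ρ1) h0 h1 h0r hr ω) 1).exists_forall_of_atTop
  obtain ⟨k, hk, hkh⟩ := hG (lc ρ0 ρ1 r ω) (fun k => Real.binEntropy ((Z ω k : ℝ) / k))
    (Real.log 2) (lc_le ω) (lc_succ h0 h1 h0r h1r hr ω) (lc_tendsto h0 h1 h0r hr ω) hb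
    (c * (s'' - s)) (max n (max 1 k1)) (mul_pos hc (by linarith))
  have hkn : n ≤ k := (le_max_left _ _).trans hk
  have hk1' : 1 ≤ k := (le_max_left 1 k1).trans ((le_max_right _ _).trans hk)
  have hkk : k1 ≤ k := (le_max_right 1 k1).trans ((le_max_right _ _).trans hk)
  have hl1 : 1 ≤ lc ρ0 ρ1 r ω k := hk1 k hkk
  set l := lc ρ0 ρ1 r ω k with hl
  refine ⟨k, l, hkn, hk1', lc_le ω k, W_lc_le h0 h1 h0r h1r hr ω k, ?_⟩
  have hlpos : (0:ℝ) < l := by exact_mod_cast hl1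
  have hkpos : (0:ℝ) < k := by exact_mod_cast hk1'
  set θ := (Z ω l : ℝ) / l with hθdef
  have hθ01 := hθ l
  have hκpos : 0 < θ * κ0 + (1 - θ) * κ1 := by
    have h2 : θ * c ≤ θ * κ0 := mul_le_mul_of_nonneg_left hκ0 hθ01.1
    have h3 : (1 - θ) * c ≤ (1 - θ) * κ1 := mul_le_mul_of_nonneg_left hκ1 (by linarith [hθ01.2])
    nlinarith
  have hlκ : l * (θ * κ0 + (1 - θ) * κ1) ≤ k * c := by
    have h2 := lc_spec (ρ0 := ρ0) (ρ1 := ρ1) hr0 hr ω k
    have h3 := Real.log_le_log (by positivity) h2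
    rw [Real.log_pow, log_W h0 h1] at h3
    have h4 : (l : ℝ) * θ = Z ω l := by rw [hθdef]; field_simp
    have h5 : l * (θ * κ0 + (1 - θ) * κ1)
        = -((Z ω l) * Real.log ρ0 + (l - Z ω l) * Real.log ρ1) := by
      rw [← h4, hκ0def, hκ1def]; ring
    rw [h5]
    rw [hcdef]
    linarith
  have hl8 : l * Real.log 8 ≤ k * c * (Real.log 8 / (θ * κ0 + (1 - θ) * κ1)) := by
    rw [← mul_div_assoc, le_div_iff₀ hκpos]
    have h8 : 0 < Real.log 8 := Real.log_pos (by norm_num)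
    nlinarith [mul_le_mul_of_nonneg_right hlκ h8.le]
  have hDD := hs θ ⟨hθ01.1, hθ01.2⟩
  unfold DD at hDD
  have e1 : k * Real.binEntropy θ = k * c * (Real.binEntropy θ / c) := by field_simp
  have hkh' : Real.binEntropy ((Z ω k : ℝ) / k) ≤ Real.binEntropy θ + c * (s'' - s) := hkh
  have h6 : k * Real.binEntropy ((Z ω k : ℝ) / k) ≤ k * Real.binEntropy θ + k * (c * (s'' - s)) := by
    nlinarith
  have h7 : k * c * (Real.binEntropy θ / c + Real.log 8 / (θ * κ0 + (1 - θ) * κ1)) ≤ k * c * s :=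
    mul_le_mul_of_nonneg_left hDD (by positivity)
  nlinarith

/-- the covering sets -/
def Cv (ρ0 ρ1 r : ℝ) (k l : ℕ) (S : Finset (Fin k)) (x : Fin l → Fin 8) : Set (ℝ × ℝ) :=
  {z | ∃ ω : ℕ → Fin 16, z = (pt (qX ρ0 ρ1) ω, pt (fun _ => r) (fun k => row (ω k))) ∧ l ≤ k ∧
    (∀ m : Fin k, m ∈ S ↔ (ω m).val < 8) ∧ (∀ m : Fin l, (x m).val = (ω m).val % 8) ∧
    W ρ0 ρ1 ω l ≤ r ^ k / min ρ0 ρ1}

lemma ediam_Cv (hGeo : S_GEO) (h0 : 0 < ρ0) (h1 : 0 < ρ1) (h0r : ρ0 ≤ r) (h1r : ρ1 ≤ r)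
    (hr : r < 1 / 16) (k l : ℕ) (S : Finset (Fin k)) (x : Fin l → Fin 8) :
    Metric.ediam (Cv ρ0 ρ1 r k l S x) ≤ ENNReal.ofReal (r ^ k / min ρ0 ρ1) := by
  have hr0 : 0 < r := h0.trans_le h0r
  have hm : 0 < min ρ0 ρ1 := lt_min h0 h1
  apply Metric.ediam_le
  rintro z ⟨ω, rfl, hlk, hS, hx, hW⟩ z' ⟨ω', rfl, -, hS', hx', -⟩
  rw [Prod.edist_eq, edist_dist, edist_dist, Real.dist_eq, Real.dist_eq]
  have hrow : ∀ m < k, ((ω m).val < 8 ↔ (ω' m).val < 8) := by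
    intro m hmk
    rw [← hS ⟨m, hmk⟩, ← hS' ⟨m, hmk⟩]
  have hdig : ∀ m < l, ω m = ω' m := by
    intro m hml
    have e1 := hx ⟨m, hml⟩
    have e2 := hx' ⟨m, hml⟩
    have e3 := hrow m (by omega)
    have e4 : (ω m).val % 8 = (ω' m).val % 8 := e1.symm.trans e2
    have b1 := (ω m).isLt
    have b2 := (ω' m).isLt
    apply Fin.ext
    by_cases h : (ω m).val < 8
    · have h' := e3.1 h
      omega
    · have h' : ¬ (ω' m).val < 8 := fun hh => h (e3.2 hh)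
      omega
  apply max_le
  · apply ENNReal.ofReal_le_ofReal
    have h2 := (hGeo (qX ρ0 ρ1) (1 / 16 - r) (by linarith)
      (fun a => ⟨qX_pos h0 h1 a, by have := qX_le h0r h1r a; linarith⟩) ω ω' l hdig).1
    exact h2.trans hW
  · apply ENNReal.ofReal_le_ofReal
    have h2 := (hGeo (fun _ => r) (1 / 16 - r) (by linarith)
      (fun a => ⟨hr0, by linarith⟩) (fun k => row (ω k)) (fun k => row (ω' k)) k (by
        intro m hmk
        have e3 := hrow m hmk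
        show row (ω m) = row (ω' m)
        unfold row
        by_cases h : (ω m).val < 8
        · rw [if_pos h, if_pos (e3.1 h)]
        · rw [if_neg h, if_neg (fun hh => h (e3.2 hh))])).1
    refine h2.trans ?_
    rw [Finset.prod_const, Finset.card_range, le_div_iff₀ hm]
    have h3 : min ρ0 ρ1 ≤ 1 := (min_le_left _ _).trans (by linarith)
    have : 0 < r ^ k := by positivity
    nlinarith

/-- good triples -/
def Good (c s'' : ℝ) (k l u : ℕ) : Prop :=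
  1 ≤ k ∧ k * Real.binEntropy ((u : ℝ) / k) + l * Real.log 8 ≤ k * c * s''

lemma count (hC : S_CHOOSE) {c s'' : ℝ} {k l u : ℕ} (hu : u ≤ k) (h : Good c s'' k l u) :
    (k.choose u : ℝ) * 8 ^ l ≤ Real.exp (k * c * s'') := by
  have h1 := (hC k u h.1 hu).1
  have hpos : 0 < (k.choose u : ℝ) := by exact_mod_cast Nat.choose_pos hu
  rw [← Real.log_le_iff_le_exp (by positivity), Real.log_mul hpos.ne' (by positivity), Real.log_pow]
  linarith [h.2]

open Classical in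
lemma level_sum (hC : S_CHOOSE) (c s'' : ℝ) (k l : ℕ) {d : ℝ} (hd : 0 ≤ d) :
    ∑ i : Finset (Fin k) × (Fin l → Fin 8),
      (if Good c s'' k l i.1.card then ENNReal.ofReal d else 0)
      ≤ ENNReal.ofReal ((k + 1) * (Real.exp (k * c * s'') * d)) := by
  rw [Fintype.sum_prod_type]
  have e1 : ∀ S : Finset (Fin k), ∑ _x : Fin l → Fin 8,
      (if Good c s'' k l S.card then ENNReal.ofReal d else 0)
      = ENNReal.ofReal (8 ^ l * (if Good c s'' k l S.card then d else 0)) := by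
    intro S
    rw [Finset.sum_const, Finset.card_univ, Fintype.card_fun, Fintype.card_fin, Fintype.card_fin,
      nsmul_eq_mul, ENNReal.ofReal_mul (by positivity)]
    congr 1
    · rw [ENNReal.ofReal_pow (by norm_num)]
      simp
    · split_ifs <;> simp
  simp only [e1]
  rw [← ENNReal.ofReal_sum_of_nonneg (by
    intro S _
    split_ifs <;> positivity)]
  apply ENNReal.ofReal_le_ofReal
  have e2 : ∑ S : Finset (Fin k), (8:ℝ) ^ l * (if Good c s'' k l S.card then d else 0)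
      = ∑ u ∈ Finset.range (k + 1), (k.choose u) • ((8:ℝ) ^ l * (if Good c s'' k l u then d else 0)) := by
    have h3 := Finset.sum_powerset_apply_card
      (f := fun u => (8:ℝ) ^ l * (if Good c s'' k l u then d else 0))
      (x := (Finset.univ : Finset (Fin k)))
    rw [Finset.powerset_univ] at h3
    rw [h3]
    simp
  rw [e2]
  calc _ ≤ ∑ u ∈ Finset.range (k + 1), Real.exp (k * c * s'') * d := by
        apply Finset.sum_le_sum
        intro u hu
        rw [Finset.mem_range] at hu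
        rw [nsmul_eq_mul]
        split_ifs with hg
        · have h4 := count hC (by omega) hg
          have h5 := mul_le_mul_of_nonneg_right h4 hd
          linarith
        · simp
          positivity
    _ = (k + 1) * (Real.exp (k * c * s'') * d) := by
        rw [Finset.sum_const, Finset.card_range, nsmul_eq_mul]
        push_cast
        ring

/-- the index type -/
abbrev Idx : Type := (k : ℕ) × ((l : Fin (k + 1)) × (Finset (Fin k) × (Fin l.val → Fin 8)))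

open Classical in
/-- the covering of level `≥ n` -/
noncomputable def tt (ρ0 ρ1 r s'' : ℝ) (n : ℕ) (i : Idx) : Set (ℝ × ℝ) :=
  if n ≤ i.1 ∧ Good (-Real.log r) s'' i.1 i.2.1.val i.2.2.1.card then
    Cv ρ0 ρ1 r i.1 i.2.1.val i.2.2.1 i.2.2.2 else ∅

lemma cover (hG : S_GOODK) (h0 : 0 < ρ0) (h1 : 0 < ρ1) (h0r : ρ0 ≤ r) (h1r : ρ1 ≤ r)
    (hr : r < 1 / 16) {s s'' : ℝ}
    (hs : ∀ θ ∈ Icc (0 : ℝ) 1, DD (-Real.log r) (-Real.log ρ0) (-Real.log ρ1) θ ≤ s)
    (hss : s < s'') (n : ℕ) : KK ρ0 ρ1 r ⊆ ⋃ i, tt ρ0 ρ1 r s'' n i := by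
  classical
  rintro z ⟨ω, rfl⟩
  obtain ⟨k, l, hnk, hk1, hlk, hW, hgood⟩ := good hG h0 h1 h0r h1r hr hs hss ω n
  rw [mem_iUnion]
  set S : Finset (Fin k) := Finset.univ.filter (fun m : Fin k => (ω m).val < 8) with hS
  have hcard : S.card = Z ω k := by
    rw [hS, Finset.card_filter]
    unfold Z
    rw [Finset.sum_range]
  refine ⟨⟨k, ⟨l, by omega⟩, S, fun m => ⟨(ω m).val % 8, Nat.mod_lt _ (by norm_num)⟩⟩, ?_⟩
  unfold tt
  rw [if_pos]
  · refine ⟨ω, rfl, hlk, ?_, ?_, hW⟩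
    · intro m
      rw [hS]
      simp
    · intro m
      rfl
  · refine ⟨hnk, hk1, ?_⟩
    show (k:ℝ) * Real.binEntropy ((S.card : ℝ) / k) + l * Real.log 8 ≤ k * (-Real.log r) * s''
    rw [hcard]
    exact hgood

end

theorem main (hGeo : S_GEO) (hG : S_GOODK) (hC : S_CHOOSE) : S_UP := by
  classical
  intro ρ0 ρ1 r s h0 h1 h0r h1r hr hs
  have hr0 : 0 < r := h0.trans_le h0r
  have hc : 0 < -Real.log r := by
    have := Real.log_neg hr0 (by linarith)
    linarith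
  have hm : 0 < min ρ0 ρ1 := lt_min h0 h1
  have hs0 : 0 < s := by
    have h2 := hs 0 ⟨le_rfl, zero_le_one⟩
    unfold DD at h2
    have h3 : 0 < Real.log 8 := Real.log_pos (by norm_num)
    have h4 : 0 < -Real.log ρ1 := by
      have := Real.log_le_log h1 h1r
      linarith
    have h5 : 0 < Real.log 8 / (0 * -Real.log ρ0 + (1 - 0) * -Real.log ρ1) := by
      apply div_pos h3
      linarith
    have h6 : Real.binEntropy 0 / -Real.log r = 0 := by simp
    linarith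
  -- the main claim
  have key : ∀ s' : ℝ, s < s' → dimH (KK ρ0 ρ1 r) ≤ ENNReal.ofReal s' := by
    intro s' hss'
    have hs'0 : 0 < s' := hs0.trans hss'
    have e0 : ENNReal.ofReal s' = ((s'.toNNReal : ℝ≥0) : ℝ≥0∞) := rfl
    rw [e0]
    apply dimH_le_of_hausdorffMeasure_ne_top
    rw [Real.coe_toNNReal s' hs'0.le]
    set s'' := (s + s') / 2 with hs''
    have hss : s < s'' := by rw [hs'']; linarith
    set c := -Real.log r with hcdef
    set a : ℕ → ℝ := fun k => (k + 1) * ((k + 1) * (Real.exp (k * c * s'') *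
      (r ^ k / min ρ0 ρ1) ^ s')) with ha
    have ha0 : ∀ k, 0 ≤ a k := by
      intro k
      simp only [ha]
      positivity
    have hlevel : ∀ n : ℕ, ∑' i : Idx, Metric.ediam (tt ρ0 ρ1 r s'' n i) ^ s'
        ≤ ∑' k, ENNReal.ofReal (a k) := by
      intro n
      rw [ENNReal.tsum_sigma']
      apply ENNReal.tsum_le_tsum
      intro k
      rw [ENNReal.tsum_sigma', tsum_fintype]
      have hl : ∀ l ∈ (Finset.univ : Finset (Fin (k + 1))),
          ∑' b : Finset (Fin k) × (Fin l.val → Fin 8),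
            Metric.ediam (tt ρ0 ρ1 r s'' n ⟨k, l, b⟩) ^ s'
          ≤ ENNReal.ofReal ((k + 1) * (Real.exp (k * c * s'') * (r ^ k / min ρ0 ρ1) ^ s')) := by
        intro l _
        rw [tsum_fintype]
        refine le_trans ?_ (level_sum hC c s'' k l.val (by positivity))
        apply Finset.sum_le_sum
        intro b _
        unfold tt
        by_cases hg : Good c s'' k l.val b.1.card
        · rw [if_pos hg]
          have h3 : Metric.ediam (if n ≤ k ∧ Good (-Real.log r) s'' k l.val b.1.card then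
              Cv ρ0 ρ1 r k l.val b.1 b.2 else ∅) ≤ ENNReal.ofReal (r ^ k / min ρ0 ρ1) := by
            split_ifs
            · exact ediam_Cv hGeo h0 h1 h0r h1r hr _ _ _ _
            · simp
          calc _ ≤ ENNReal.ofReal (r ^ k / min ρ0 ρ1) ^ s' := ENNReal.rpow_le_rpow h3 hs'0.le
            _ = ENNReal.ofReal ((r ^ k / min ρ0 ρ1) ^ s') :=
              ENNReal.ofReal_rpow_of_pos (by positivity)
        · rw [if_neg hg, if_neg (fun hh => hg hh.2)]
          simp [hs'0]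
      refine (Finset.sum_le_sum hl).trans ?_
      rw [Finset.sum_const, Finset.card_univ, Fintype.card_fin, nsmul_eq_mul]
      have e3 : ((k + 1 : ℕ) : ℝ≥0∞) = ENNReal.ofReal ((k:ℝ) + 1) := by
        rw [← ENNReal.ofReal_natCast]; push_cast; rfl
      rw [e3, ← ENNReal.ofReal_mul (by positivity)]
    have hsum : Summable a := by
      set lam := Real.exp (-(c * (s' - s''))) with hlam
      have hlam1 : lam < 1 := by
        rw [hlam, Real.exp_lt_one_iff]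
        have : 0 < c * (s' - s'') := mul_pos hc (by rw [hs'']; linarith)
        linarith
      have hlam0 : 0 < lam := Real.exp_pos _
      have e4 : a = fun k => (lam⁻¹ / (min ρ0 ρ1) ^ s') * ((((k + 1 : ℕ) : ℝ)) ^ 2 * lam ^ (k + 1)) := by
        funext k
        simp only [ha]
        have e5 : (r ^ k / min ρ0 ρ1) ^ s' = Real.exp (-(k * c * s')) / (min ρ0 ρ1) ^ s' := by
          rw [Real.div_rpow (by positivity) hm.le]
          congr 1
          rw [Real.rpow_def_of_pos (by positivity), Real.log_pow, hcdef]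
          congr 1
          ring
        have e6 : Real.exp (k * c * s'') * Real.exp (-(k * c * s')) = lam ^ k := by
          rw [← Real.exp_add, hlam, ← Real.exp_nat_mul]
          congr 1
          ring
        rw [e5, pow_succ lam k, ← e6]
        push_cast
        field_simp
      rw [e4]
      apply Summable.mul_left
      have h5 := summable_pow_mul_geometric_of_norm_lt_one 2 (r := lam)
        (by rw [Real.norm_eq_abs, abs_of_pos hlam0]; exact hlam1)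
      exact (summable_nat_add_iff 1).2 h5
    have hfin : ∑' k, ENNReal.ofReal (a k) ≠ ⊤ := by
      rw [← ENNReal.ofReal_tsum_of_nonneg ha0 hsum]
      exact ENNReal.ofReal_ne_top
    have hμ := Measure.hausdorffMeasure_le_liminf_tsum (β := ℕ) (ι := fun _ => Idx) s'
      (KK ρ0 ρ1 r) (l := atTop) (fun n => ENNReal.ofReal (r ^ n / min ρ0 ρ1)) (by
        have h5 : Tendsto (fun n : ℕ => r ^ n / min ρ0 ρ1) atTop (𝓝 (0 / min ρ0 ρ1)) :=
          (tendsto_pow_atTop_nhds_zero_of_lt_one hr0.le (by linarith)).div_const _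
        rw [zero_div] at h5
        have h6 := ENNReal.tendsto_ofReal h5
        rwa [ENNReal.ofReal_zero] at h6)
      (fun n i => tt ρ0 ρ1 r s'' n i) (Eventually.of_forall (fun n i => by
        unfold tt
        split_ifs with hh
        · refine (ediam_Cv hGeo h0 h1 h0r h1r hr _ _ _ _).trans ?_
          apply ENNReal.ofReal_le_ofReal
          apply div_le_div_of_nonneg_right _ hm.le
          exact pow_le_pow_of_le_one hr0.le (by linarith) hh.1
        · simp))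
      (Eventually.of_forall (fun n => cover hG h0 h1 h0r h1r hr hs hss n))
    have h7 : liminf (fun n : ℕ => ∑' i : Idx, Metric.ediam (tt ρ0 ρ1 r s'' n i) ^ s') atTop
        ≤ ∑' k, ENNReal.ofReal (a k) := by
      have h8 := Filter.liminf_le_liminf (f := atTop)
        (u := fun n : ℕ => ∑' i : Idx, Metric.ediam (tt ρ0 ρ1 r s'' n i) ^ s')
        (v := fun _ => ∑' k, ENNReal.ofReal (a k)) (Eventually.of_forall hlevel)
      rwa [Filter.liminf_const] at h8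
    exact ((hμ.trans h7).trans_lt hfin.lt_top).ne
  -- conclusion
  have h9 : Tendsto (fun e : ℝ => ENNReal.ofReal (s + e)) (𝓝[>] 0) (𝓝 (ENNReal.ofReal s)) := by
    apply ENNReal.tendsto_ofReal
    have : Tendsto (fun e : ℝ => s + e) (𝓝 0) (𝓝 (s + 0)) := tendsto_const_nhds.add tendsto_id
    rw [add_zero] at this
    exact this.mono_left nhdsWithin_le_nhds
  apply ge_of_tendsto h9
  filter_upwards [self_mem_nhdsWithin] with e he
  exact key (s + e) (by have : 0 < e := he; linarith)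

end Pool.Agent.R660.BS.UP
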